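import Mathlib

set_option autoImplicit false

open Finset Filter Topology
open scoped ComplexConjugate

namespace Pool.Agent.H.MP_0dd021_an

/-- bilinear form of the boundedness of the kernel `K` on `ℓ^p(ℤ)` -/
def Bd (p q : ℝ) (K : ℤ → ℤ → ℂ) (C : ℝ) : Prop :=
  ∀ (S T : Finset ℤ) (a b : ℤ → ℂ), ‖∑ n ∈ T, ∑ m ∈ S, b n * K n m * a m‖ ≤
    C * (∑ m ∈ S, ‖a m‖ ^ p + ∑ n ∈ T, ‖b n‖ ^ q)

variable {p q : ℝ} {K K' : ℤ → ℤ → ℂ} {C C' : ℝ}

lemma Bd.add (h : Bd p q K C) (h' : Bd p q K' C') :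
    Bd p q (fun n m => K n m + K' n m) (C + C') := fun S T a b => by
  simp only [mul_add (b _), add_mul, sum_add_distrib]
  exact (norm_add_le _ _).trans (add_le_add (h S T a b) (h' S T a b))

lemma Bd.mono (h : Bd p q K C) (hC : C ≤ C') : Bd p q K C' := fun S T a b =>
  (h S T a b).trans (by gcongr)

lemma Bd.congr (h : Bd p q K C) (e : ∀ n m, K' n m = K n m) : Bd p q K' C := by
  rwa [show K' = K from funext₂ e]

lemma Bd.smul (h : Bd p q K C) (c : ℂ) : Bd p q (fun n m => c * K n m) (‖c‖ * C) :=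
  fun S T a b => by
  have e : ∑ n ∈ T, ∑ m ∈ S, b n * (c * K n m) * a m =
      c * ∑ n ∈ T, ∑ m ∈ S, b n * K n m * a m := by
    simp only [mul_sum]
    exact sum_congr rfl fun _ _ => sum_congr rfl fun _ _ => by ring
  rw [e, norm_mul, mul_assoc]
  exact mul_le_mul_of_nonneg_left (h S T a b) (norm_nonneg _)

lemma Bd.mod (h : Bd p q K C) (u v : ℤ → ℂ) (hu : ∀ n, ‖u n‖ = 1) (hv : ∀ n, ‖v n‖ = 1) :
    Bd p q (fun n m => u n * K n m * v m) C := fun S T a b => by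
  have := h S T (fun m => v m * a m) (fun n => b n * u n)
  simp only [norm_mul, hu, hv, one_mul, mul_one] at this
  simpa only [mul_assoc] using this

lemma Bd.symm (h : Bd p q K C) : Bd q p (fun n m => K m n) C := fun S T a b => by
  have := h T S b a
  rw [sum_comm, add_comm]
  convert this using 4
  ring

lemma yng (hpq : p.HolderConjugate q) {x y : ℝ} (hx : 0 ≤ x) (hy : 0 ≤ y) :
    x * y ≤ x ^ p + y ^ q :=
  (Real.young_inequality_of_nonneg hx hy hpq).trans (add_le_add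
    (div_le_self (by positivity) hpq.lt.le) (div_le_self (by positivity) hpq.symm.lt.le))

lemma schur (hpq : p.HolderConjugate q) (h1 : ∀ n S, ∑ m ∈ S, ‖K n m‖ ≤ C)
    (h2 : ∀ m T, ∑ n ∈ T, ‖K n m‖ ≤ C) : Bd p q K C := fun S T a b => by
  calc _ ≤ ∑ n ∈ T, ∑ m ∈ S, (‖K n m‖ * ‖a m‖ ^ p + ‖K n m‖ * ‖b n‖ ^ q) := by
        refine norm_sum_le_of_le _ fun n _ => norm_sum_le_of_le _ fun m _ => ?_
        have := mul_le_mul_of_nonneg_left (yng hpq (norm_nonneg (a m)) (norm_nonneg (b n)))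
          (norm_nonneg (K n m))
        rw [norm_mul, norm_mul]
        linarith
    _ = ∑ m ∈ S, (∑ n ∈ T, ‖K n m‖) * ‖a m‖ ^ p + ∑ n ∈ T, (∑ m ∈ S, ‖K n m‖) * ‖b n‖ ^ q := by
        simp only [sum_add_distrib, sum_mul]
        rw [sum_comm]
    _ ≤ _ := by
        rw [mul_add, mul_sum, mul_sum]
        gcongr
        exacts [h2 _ _, h1 _ _]

lemma pair (hpq : p.HolderConjugate q) (hC : 0 < C) (T : Finset ℤ) (c b : ℤ → ℂ) {X : ℝ}
    (h : ∑ n ∈ T, ‖c n‖ ^ p ≤ C ^ p * X) :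
    ‖∑ n ∈ T, b n * c n‖ ≤ C * (X + ∑ n ∈ T, ‖b n‖ ^ q) := by
  have hp : 0 < C ^ p := by positivity
  calc _ ≤ ∑ n ∈ T, C * (‖c n‖ ^ p / C ^ p + ‖b n‖ ^ q) := by
        refine norm_sum_le_of_le _ fun n _ => ?_
        have := mul_le_mul_of_nonneg_left (yng hpq (x := ‖c n‖ / C) (by positivity)
          (norm_nonneg (b n))) hC.le
        rw [Real.div_rpow (norm_nonneg _) hC.le] at this
        rw [norm_mul]
        refine le_trans (le_of_eq ?_) this
        field_simp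
    _ ≤ _ := by
        rw [← mul_sum, sum_add_distrib, ← sum_div]
        gcongr
        rwa [div_le_iff₀' hp]

lemma of_lp (hpq : p.HolderConjugate q) (hC : 0 < C)
    (h : ∀ (S T : Finset ℤ) (a : ℤ → ℂ), ∑ n ∈ T, ‖∑ m ∈ S, K n m * a m‖ ^ p ≤
      C ^ p * ∑ m ∈ S, ‖a m‖ ^ p) : Bd p q K C := fun S T a b => by
  simpa only [mul_sum, mul_assoc] using pair hpq hC T _ b (h S T a)

lemma Bd.lp (hpq : p.HolderConjugate q) (hC : 0 < C) (h : Bd p q K C) (S T : Finset ℤ)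
    (a : ℤ → ℂ) : ∑ n ∈ T, ‖∑ m ∈ S, K n m * a m‖ ^ p ≤ (2 * C) ^ p * ∑ m ∈ S, ‖a m‖ ^ p := by
  set c : ℤ → ℂ := fun n => ∑ m ∈ S, K n m * a m with hc
  have h2 : 0 < 2 * C := by positivity
  have hp := hpq.pos
  have hq := hpq.symm.pos
  have e1 : (p - 1) * q = p := hpq.sub_one_mul_conj
  set l : ℝ := (2 * C) ^ (1 - p) with hl
  have l0 : 0 < l := by positivity
  have k := h S T a fun n => (l * ‖c n‖ ^ (p - 1) : ℝ) * (conj (c n) / ‖c n‖)
  have e2 : ∀ n, ∑ m ∈ S, ((l * ‖c n‖ ^ (p - 1) : ℝ) * (conj (c n) / ‖c n‖) : ℂ) * K n m * a m =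
      ((l * ‖c n‖ ^ p : ℝ) : ℂ) := fun n => by
    simp only [mul_assoc _ (K n _), ← mul_sum]
    change _ * c n = _
    rcases eq_or_ne (c n) 0 with h0 | h0
    · simp [h0, hp.ne']
    · have : (‖c n‖ : ℂ) ≠ 0 := by simpa using h0
      rw [Real.rpow_sub_one (by simpa using h0), mul_assoc, div_mul_eq_mul_div, Complex.conj_mul']
      push_cast
      field_simp
  have e3 : ∀ n, ‖((l * ‖c n‖ ^ (p - 1) : ℝ) * (conj (c n) / ‖c n‖) : ℂ)‖ ^ q ≤
      l / (2 * C) * ‖c n‖ ^ p := fun n => by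
    have : ‖((l * ‖c n‖ ^ (p - 1) : ℝ) * (conj (c n) / ‖c n‖) : ℂ)‖ ≤ l * ‖c n‖ ^ (p - 1) := by
      rw [norm_mul, Complex.norm_real, Real.norm_of_nonneg (by positivity)]
      refine mul_le_of_le_one_right (by positivity) ?_
      simp [div_self_le_one]
    refine (Real.rpow_le_rpow (norm_nonneg _) this hq.le).trans (le_of_eq ?_)
    rw [Real.mul_rpow l0.le (by positivity), ← Real.rpow_mul (norm_nonneg _), e1, hl,
      ← Real.rpow_mul h2.le, ← Real.rpow_sub_one h2.ne']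
    congr 2
    linarith
  simp only [e2] at k
  rw [← Complex.ofReal_sum, Complex.norm_real, Real.norm_of_nonneg (by positivity),
    ← mul_sum] at k
  have k2 := sum_le_sum fun n (_ : n ∈ T) => e3 n
  rw [← mul_sum] at k2
  have e4 : (2 * C) ^ p * l = 2 * C := by
    rw [hl, ← Real.rpow_add h2]
    simp
  have k3 : l * ∑ n ∈ T, ‖c n‖ ^ p ≤ 2 * C * ∑ m ∈ S, ‖a m‖ ^ p := by
    have := mul_le_mul_of_nonneg_left k2 hC.le
    have e5 : C * (l / (2 * C) * ∑ n ∈ T, ‖c n‖ ^ p) = l * (∑ n ∈ T, ‖c n‖ ^ p) / 2 := by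
      field_simp
    linarith
  refine le_of_mul_le_mul_left ?_ l0
  calc _ ≤ _ := k3
    _ = _ := by rw [← mul_assoc l, mul_comm l, e4]

noncomputable def qq (d : ℤ) : ℝ := 1 / (1 + (d : ℝ) ^ 2)

lemma qq_pos (d : ℤ) : 0 < qq d := by unfold qq; positivity

lemma qq_summable : Summable qq := by
  refine Summable.of_norm_bounded_eventually (Real.summable_one_div_int_pow.2 one_lt_two) ?_
  filter_upwards [(Set.finite_singleton (0 : ℤ)).compl_mem_cofinite] with d hd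
  have : (d : ℝ) ≠ 0 := by simpa using hd
  rw [Real.norm_of_nonneg (qq_pos d).le, qq]
  gcongr
  linarith

lemma qq_bd (hpq : p.HolderConjugate q) :
    ∃ C, 0 < C ∧ Bd p q (fun n m => (qq (n - m) : ℂ)) C := by
  refine ⟨∑' d, qq d, qq_summable.tsum_pos (fun d => (qq_pos d).le) 0 (qq_pos 0),
    schur hpq (fun n S => ?_) fun m T => ?_⟩
  · simp only [Complex.norm_real, Real.norm_of_nonneg (qq_pos _).le]
    rw [← (Equiv.subLeft n).tsum_eq]
    exact ((Equiv.subLeft n).summable_iff.2 qq_summable).sum_le_tsum S fun d _ => (qq_pos _).le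
  · simp only [Complex.norm_real, Real.norm_of_nonneg (qq_pos _).le]
    rw [← (Equiv.subRight m).tsum_eq]
    exact ((Equiv.subRight m).summable_iff.2 qq_summable).sum_le_tsum T fun d _ => (qq_pos _).le

end Pool.Agent.H.MP_0dd021_an
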