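import Pool.Agent.H.MP_0dd021_an.A

set_option autoImplicit false

open Finset Filter Topology Complex
open scoped Real

namespace Pool.Agent.H.MP_0dd021_an

variable {p q : ℝ}

lemma ptw (hp1 : 1 < p) (hp2 : p ≤ 2) : ∃ α β : ℝ, 0 ≤ α ∧ 0 ≤ β ∧
    ∀ z : ℂ, 0 < z.re → ‖z‖ ^ p ≤ α * z.re ^ p - β * (z ^ (p : ℂ)).re := by
  have hπ := Real.pi_pos
  have hp0 : 0 < p := by linarith
  set φ : ℝ := (π / (2 * p) + π / 2) / 2 with hφ
  have h0 : 0 < π / (2 * p) := by positivity
  have h1 : π / (2 * p) < π / 2 := div_lt_div_of_pos_left hπ two_pos (by linarith)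
  have h2 : π / (2 * p) * p = π / 2 := by field_simp
  have h3 : π / 2 < φ * p := by rw [hφ]; nlinarith
  have h4 : φ * p < π + π / 2 := by rw [hφ]; nlinarith
  have hc := Real.cos_neg_of_pi_div_two_lt_of_lt h3 h4
  have hd : 0 < Real.cos φ := Real.cos_pos_of_mem_Ioo ⟨by linarith, by linarith⟩
  set β : ℝ := 1 / -Real.cos (φ * p) with hβ
  have β0 : 0 < β := one_div_pos.2 (by linarith)
  refine ⟨(1 + β) / Real.cos φ ^ p, β, by positivity, β0.le, fun z hz => ?_⟩
  have ha := abs_arg_lt_pi_div_two_iff.2 (Or.inl hz)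
  have hr : 0 ≤ ‖z‖ ^ p := by positivity
  rw [cpow_ofReal_re]
  rcases le_total φ |z.arg| with h | h
  · have k : Real.cos (z.arg * p) ≤ Real.cos (φ * p) := by
      rw [← Real.cos_abs (z.arg * p), abs_mul, abs_of_pos hp0]
      exact Real.cos_le_cos_of_nonneg_of_le_pi (by linarith) (by nlinarith [abs_nonneg z.arg])
        (by gcongr)
    have k2 : β * -Real.cos (φ * p) = 1 := by rw [hβ]; exact one_div_mul_cancel (by linarith)
    have k3 : 0 ≤ (1 + β) / Real.cos φ ^ p * z.re ^ p := by positivity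
    have k4 : 0 ≤ ‖z‖ ^ p * (β * (Real.cos (φ * p) - Real.cos (z.arg * p))) :=
      mul_nonneg hr (mul_nonneg β0.le (by linarith))
    nlinarith
  · have k : Real.cos φ ≤ Real.cos z.arg := by
      rw [← Real.cos_abs z.arg]
      exact Real.cos_le_cos_of_nonneg_of_le_pi (abs_nonneg _) (by linarith) h
    have k2 : ‖z‖ ^ p * Real.cos φ ^ p ≤ z.re ^ p := by
      rw [← Real.mul_rpow (norm_nonneg _) hd.le, ← norm_mul_cos_arg]
      gcongr
    have k3 : (1 + β) * ‖z‖ ^ p ≤ (1 + β) / Real.cos φ ^ p * z.re ^ p := by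
      rw [div_mul_eq_mul_div, le_div_iff₀ (by positivity), mul_assoc]
      gcongr
    have k4 := mul_le_mul_of_nonneg_left (Real.cos_le_one (z.arg * p)) (mul_nonneg β0.le hr)
    nlinarith

lemma add_rp (hp : 0 ≤ p) {u v : ℝ} (hu : 0 ≤ u) (hv : 0 ≤ v) :
    (u + v) ^ p ≤ 2 ^ p * (u ^ p + v ^ p) := by
  wlog h : u ≤ v
  · simpa only [add_comm] using this hp hv hu (le_of_not_ge h)
  calc (u + v) ^ p ≤ (2 * v) ^ p := by gcongr; linarith
    _ = 2 ^ p * v ^ p := Real.mul_rpow two_pos.le hv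
    _ ≤ _ := by
      gcongr
      exact le_add_of_nonneg_left (by positivity)

/-- the discrete Hilbert kernel -/
noncomputable def Hil (n m : ℤ) : ℂ := 1 / ((n - m : ℤ) : ℂ)

lemma ker_est (d : ℤ) {t : ℝ} (h0 : 0 ≤ t) (h1 : t ≤ 1) :
    (I / (d + t + I)).re ≤ 4 * qq d ∧ ‖1 / (d : ℂ) - 1 / (d + t + I)‖ ≤ 4 * qq d := by
  have e : normSq ((d : ℂ) + t + I) = (d + t) ^ 2 + 1 := by simp [normSq_apply]; ring
  have k : 1 + (d : ℝ) ^ 2 ≤ 3 * ((d + t) ^ 2 + 1) := by nlinarith [sq_nonneg (2 * (d : ℝ) + 3 * t)]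
  have hne : (d : ℂ) + t + I ≠ 0 := fun h => by simpa using congrArg im h
  have hq := qq_pos d
  constructor
  · rw [div_re, e, qq]
    simp only [I_re, zero_mul, zero_div, I_im, add_im, intCast_im, ofReal_im, add_zero, zero_add,
      mul_one]
    rw [mul_one_div, div_le_div_iff₀ (by positivity) (by positivity)]
    nlinarith
  · refine le_of_sq_le_sq ?_ (by positivity)
    rw [← normSq_eq_norm_sq]
    rcases eq_or_ne d 0 with rfl | hd
    · simp only [Int.cast_zero, div_zero, zero_sub, normSq_neg, map_div₀, map_one, qq] at e ⊢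
      rw [e, div_le_iff₀ (by positivity)]
      nlinarith
    · have d1 : (1 : ℝ) ≤ (d : ℝ) ^ 2 := by exact_mod_cast (one_le_sq_iff_one_le_abs d).2 (Int.one_le_abs hd)
      have d2 : (d : ℂ) ≠ 0 := by exact_mod_cast hd
      have e2 : 1 / (d : ℂ) - 1 / (d + t + I) = (t + I) / (d * (d + t + I)) := by
        field_simp
        ring
      rw [e2, map_div₀, map_mul, e, qq, normSq_intCast, mul_one_div, div_pow,
        div_le_div_iff₀ (by nlinarith) (by positivity)]
      have e3 : normSq ((t : ℂ) + I) ≤ 2 := by simp [normSq_apply]; nlinarith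
      calc _ ≤ 2 * ((2 * (d : ℝ) ^ 2) * (3 * ((d + t) ^ 2 + 1))) := by
            rw [sq (1 + (d : ℝ) ^ 2)]
            gcongr
            linarith
        _ ≤ _ := by nlinarith [sq_nonneg (d + t)]

noncomputable def FF (S : Finset ℤ) (a : ℤ → ℝ) (z : ℂ) : ℂ := ∑ m ∈ S, a m * (I / (z - m))

lemma FF_re {S : Finset ℤ} {a : ℤ → ℝ} (ha : ∀ m, 0 ≤ a m) (h : ∃ m ∈ S, a m ≠ 0) {z : ℂ}
    (hz : 0 < z.im) : 0 < (FF S a z).re := by
  have k : ∀ m : ℤ, 0 < (I / (z - m)).re := fun m => by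
    have : z - m ≠ 0 := fun h => by simpa [hz.ne'] using congrArg im h
    have := normSq_pos.2 this
    rw [div_re]
    simp only [I_re, zero_mul, zero_div, I_im, sub_im, intCast_im, sub_zero, one_mul, zero_add]
    positivity
  obtain ⟨m, hm, h⟩ := h
  simp only [FF, re_sum, re_ofReal_mul]
  exact sum_pos' (fun m _ => mul_nonneg (ha m) (k m).le)
    ⟨m, hm, mul_pos ((ha m).lt_of_ne' h) (k m)⟩

lemma FF_diff {S : Finset ℤ} {a : ℤ → ℝ} (ha : ∀ m, 0 ≤ a m) (h : ∃ m ∈ S, a m ≠ 0) {z : ℂ}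
    (hz : 0 < z.im) : DifferentiableAt ℂ (fun w => FF S a w ^ (p : ℂ)) z := by
  refine DifferentiableAt.cpow_const ?_ (Or.inl (FF_re ha h hz))
  refine DifferentiableAt.fun_sum fun m _ => ?_
  have : z - m ≠ 0 := fun h => by simpa [hz.ne'] using congrArg im h
  fun_prop (disch := assumption)

lemma FF_bd {S : Finset ℤ} {a : ℤ → ℝ} (ha : ∀ m, 0 ≤ a m) (hp : 0 ≤ p) {z : ℂ} {R : ℝ}
    (hR : 0 < R) (h1 : ∀ m ∈ S, 2 * |(m : ℝ)| ≤ R) (h2 : R ≤ ‖z‖) :
    ‖FF S a z ^ (p : ℂ)‖ ≤ (2 * (∑ m ∈ S, a m) / R) ^ p := by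
  rw [norm_cpow_real]
  gcongr
  rw [mul_sum, sum_div]
  refine norm_sum_le_of_le _ fun m hm => ?_
  have := norm_sub_norm_le z m
  rw [norm_intCast] at this
  have := h1 m hm
  rw [norm_mul, norm_div, norm_I, norm_real, Real.norm_of_nonneg (ha m), mul_one_div,
    div_le_div_iff₀ (by linarith) hR]
  nlinarith [ha m]

lemma FF_lim {S : Finset ℤ} {a : ℤ → ℝ} (ha : ∀ m, 0 ≤ a m) (h : ∃ m ∈ S, a m ≠ 0) (hp : 1 < p) :
    Tendsto (fun R : ℕ => ∫ x : ℝ in -(R : ℝ)..R, FF S a (x + I) ^ (p : ℂ)) atTop (𝓝 0) := by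
  set A := 2 * ∑ m ∈ S, a m
  have hA : 0 ≤ A := mul_nonneg two_pos.le (sum_nonneg fun m _ => ha m)
  have l : Tendsto (fun R : ℕ => 4 * A ^ p * (R : ℝ) ^ (-(p - 1))) atTop (𝓝 0) := by
    simpa using ((tendsto_rpow_neg_atTop (sub_pos.2 hp)).comp
      tendsto_natCast_atTop_atTop).const_mul (4 * A ^ p)
  refine squeeze_zero_norm' ?_ l
  filter_upwards [tendsto_natCast_atTop_atTop.eventually_ge_atTop (1 : ℝ),
    (eventually_all_finset S).2 fun m _ =>
      tendsto_natCast_atTop_atTop.eventually_ge_atTop (2 * |(m : ℝ)|)] with R h1 h2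
  have hR : (0 : ℝ) < R := by linarith
  have k := integral_boundary_rect_eq_zero_of_differentiableOn (fun w => FF S a w ^ (p : ℂ))
    ⟨-R, 1⟩ ⟨R, R⟩ fun z hz => (FF_diff ha h (by
      have := hz.2
      rw [Set.mem_preimage, Set.uIcc_of_le h1] at this
      linarith [this.1])).differentiableWithinAt
  simp only [ofReal_one, one_mul, smul_eq_mul] at k
  have b := fun z hz => FF_bd ha (by linarith : 0 ≤ p) (z := z) hR h2 hz
  have b1 := intervalIntegral.norm_integral_le_of_norm_le_const (a := -(R : ℝ)) (b := R)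
    (f := fun x : ℝ => FF S a (x + (R : ℝ) * I) ^ (p : ℂ)) fun x _ => b _
      (le_trans (by simp) (abs_im_le_norm _))
  have b2 := intervalIntegral.norm_integral_le_of_norm_le_const (a := 1) (b := R)
    (f := fun x : ℝ => FF S a ((R : ℝ) + x * I) ^ (p : ℂ)) fun x _ => b _
      (le_trans (by simp) (abs_re_le_norm _))
  have b3 := intervalIntegral.norm_integral_le_of_norm_le_const (a := 1) (b := R)
    (f := fun x : ℝ => FF S a ((-R : ℝ) + x * I) ^ (p : ℂ)) fun x _ => b _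
      (le_trans (by simp) (abs_re_le_norm _))
  rw [abs_of_nonneg (by linarith)] at b1 b2 b3
  rw [sub_eq_zero, ← eq_sub_iff_add_eq, sub_eq_iff_eq_add] at k
  rw [k]
  refine (norm_add_le _ _).trans ((add_le_add (norm_sub_le _ _) le_rfl).trans ?_)
  simp only [norm_mul, norm_I, one_mul]
  have e : 4 * A ^ p * (R : ℝ) ^ (-(p - 1)) = (A / R) ^ p * (4 * R) := by
    rw [Real.div_rpow hA hR.le, Real.rpow_neg hR.le, Real.rpow_sub_one hR.ne']
    field_simp
  have : 0 ≤ (A / R) ^ p := by positivity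
  rw [e]
  nlinarith

lemma riesz0 (hpq : p.HolderConjugate q) (hp2 : p ≤ 2) : ∃ C, 0 < C ∧
    ∀ (S T : Finset ℤ) (a : ℤ → ℝ), (∀ m, 0 ≤ a m) →
      ∑ n ∈ T, ‖∑ m ∈ S, Hil n m * a m‖ ^ p ≤ C ^ p * ∑ m ∈ S, a m ^ p := by
  obtain ⟨α, β, hα, hβ, h⟩ := ptw hpq.lt hp2
  obtain ⟨C, hC, hQ⟩ := qq_bd hpq
  have hp := hpq.pos
  refine ⟨2 * ((α + 1) * (4 * (2 * C))), by positivity, fun S T a ha => ?_⟩
  by_cases h0 : ∃ m ∈ S, a m ≠ 0
  swap
  · push Not at h0
    rw [sum_eq_zero fun n _ => by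
      rw [sum_eq_zero fun m hm => by simp [h0 m hm], norm_zero, Real.zero_rpow hp.ne']]
    exact mul_nonneg (by positivity) (sum_nonneg fun m _ => Real.rpow_nonneg (ha m) _)
  set Q : ℤ → ℝ := fun n => ∑ m ∈ S, qq (n - m) * a m with hQd
  have Q0 : ∀ n, 0 ≤ Q n := fun n => sum_nonneg fun m _ => mul_nonneg (qq_pos _).le (ha m)
  have hQ2 : ∀ U : Finset ℤ, ∑ n ∈ U, Q n ^ p ≤ (2 * C) ^ p * ∑ m ∈ S, a m ^ p := fun U => by
    have := hQ.lp hpq hC S U fun m => a m
    simp only [← ofReal_mul, ← ofReal_sum, norm_real, Real.norm_of_nonneg (ha _)] at this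
    exact (sum_congr rfl fun n _ => by rw [← Real.norm_of_nonneg (Q0 n)]).trans_le this
  set G : ℝ → ℂ := fun x => FF S a (x + I) ^ (p : ℂ) with hG
  have Gc : Continuous G := continuous_iff_continuousAt.2 fun x =>
    ContinuousAt.comp (f := fun x : ℝ => (x + I : ℂ))
      (FF_diff ha h0 (by simp)).continuousAt (by fun_prop)
  have s1 : ∀ n : ℤ, ‖∑ m ∈ S, Hil n m * a m‖ ^ p ≤
      2 ^ p * ((α + 1) * (4 * Q n) ^ p - β * (∫ x in (n : ℝ)..(n + 1 : ℝ), G x).re) := fun n => by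
    have s0 : ∀ x ∈ Set.Icc (n : ℝ) (n + 1), ‖∑ m ∈ S, Hil n m * a m‖ ^ p ≤
        2 ^ p * ((α + 1) * (4 * Q n) ^ p - β * (G x).re) := fun x hx => by
      have k := fun m : ℤ => ker_est (n - m) (t := x - n) (by linarith [hx.1]) (by linarith [hx.2])
      have e : ∀ m : ℤ, (((n - m : ℤ) : ℂ) + (x - n : ℝ) + I) = x + I - m := fun m => by
        push_cast; ring
      simp only [e] at k
      have k1 : (FF S a (x + I)).re ≤ 4 * Q n := by
        simp only [FF, re_sum, re_ofReal_mul, hQd, mul_sum]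
        exact sum_le_sum fun m _ => by nlinarith [(k m).1, ha m]
      have k2 : ‖∑ m ∈ S, Hil n m * a m‖ ≤ ‖FF S a (x + I)‖ + 4 * Q n := by
        have : ∑ m ∈ S, Hil n m * a m = -I * FF S a (x + I) +
            ∑ m ∈ S, (1 / ((n - m : ℤ) : ℂ) - 1 / (x + I - m)) * a m := by
          simp only [FF, mul_sum, ← sum_add_distrib, Hil]
          refine sum_congr rfl fun m _ => ?_
          linear_combination (a m / (x + I - m)) * I_sq
        rw [this]
        refine norm_add_le_of_le (by simp) ?_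
        simp only [hQd, mul_sum]
        refine norm_sum_le_of_le _ fun m _ => ?_
        rw [norm_mul, norm_real, Real.norm_of_nonneg (ha m), ← mul_assoc]
        exact mul_le_mul_of_nonneg_right (k m).2 (ha m)
      have k0 := FF_re ha h0 (z := x + I) (by simp)
      have k3 := h _ k0
      have k4 : (FF S a (x + I)).re ^ p ≤ (4 * Q n) ^ p := by gcongr
      have q0 := Q0 n
      refine (Real.rpow_le_rpow (norm_nonneg _) k2 hp.le).trans
        ((add_rp hp.le (norm_nonneg _) (by positivity)).trans ?_)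
      gcongr
      nlinarith
    have := intervalIntegral.integral_mono_on (by linarith) intervalIntegrable_const
      (Continuous.intervalIntegrable (μ := MeasureTheory.volume) (by fun_prop) _ _) s0
    rw [intervalIntegral.integral_const_mul, intervalIntegral.integral_sub intervalIntegrable_const
      (Continuous.intervalIntegrable (by fun_prop) _ _), intervalIntegral.integral_const_mul β]
      at this
    have e := reCLM.intervalIntegral_comp_comm (Gc.intervalIntegrable (μ := MeasureTheory.volume) n (n + 1))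
    simp only [reCLM_apply] at e
    simpa [e] using this
  have l := ((((continuous_re.tendsto 0).comp (FF_lim ha h0 hpq.lt)).const_mul β).const_sub
    ((α + 1) * (4 ^ p * ((2 * C) ^ p * ∑ m ∈ S, a m ^ p)))).const_mul (2 ^ p)
  refine le_trans (ge_of_tendsto l ?_) ?_
  · filter_upwards [(eventually_all_finset T).2 fun m _ =>
      tendsto_natCast_atTop_atTop.eventually_gt_atTop |m|] with R hR
    have hs : T ⊆ (range (2 * R)).image fun k : ℕ => (k : ℤ) - R := fun n hn => by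
      have := abs_lt.1 (hR n hn)
      exact mem_image.2 ⟨(n + R).toNat, mem_range.2 (by omega), by omega⟩
    refine (sum_le_sum_of_subset_of_nonneg hs fun _ _ _ => by positivity).trans
      ((sum_le_sum fun n _ => s1 n).trans ?_)
    rw [← mul_sum, sum_sub_distrib, ← mul_sum, ← mul_sum, ← re_sum]
    gcongr
    · simp only [Real.mul_rpow (by norm_num : (0 : ℝ) ≤ 4) (Q0 _), ← mul_sum]
      gcongr
      exact hQ2 _
    · rw [sum_image fun _ _ _ _ h => by simpa using h]
      have := intervalIntegral.sum_integral_adjacent_intervals (a := fun k : ℕ => (k : ℝ) - R)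
        (n := 2 * R) fun k _ => Gc.intervalIntegrable (μ := MeasureTheory.volume) _ _
      simp only [Nat.cast_add, Nat.cast_one, add_sub_right_comm, Nat.cast_zero, zero_sub,
        two_mul, sub_self, zero_add] at this
      simp only [Int.cast_sub, Int.cast_natCast, two_mul, this]
      rfl
  · have : 0 ≤ ∑ m ∈ S, a m ^ p := sum_nonneg fun m _ => Real.rpow_nonneg (ha m) _
    have k : α + 1 ≤ (α + 1) ^ p := Real.self_le_rpow_of_one_le (by linarith) hpq.lt.le
    simp only [zero_re, mul_zero, sub_zero]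
    rw [Real.mul_rpow (y := (α + 1) * _) two_pos.le (by positivity),
      Real.mul_rpow (x := α + 1) (by positivity) (by positivity),
      Real.mul_rpow (x := 4) (by positivity) (by positivity)]
    simp only [mul_assoc]
    gcongr

lemma riesz1 (hpq : p.HolderConjugate q) (hp2 : p ≤ 2) : ∃ C, 0 < C ∧ Bd p q Hil C := by
  obtain ⟨C, hC, h⟩ := riesz0 hpq hp2
  have hp := hpq.pos
  refine ⟨4 * C, by positivity, fun S T a b => ?_⟩
  have k : ∀ (u : ℤ → ℝ), (∀ m, |u m| ≤ ‖a m‖) → ‖∑ n ∈ T, b n * ∑ m ∈ S, Hil n m * (u m ⊔ 0 : ℝ)‖ ≤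
      C * (∑ m ∈ S, ‖a m‖ ^ p + ∑ n ∈ T, ‖b n‖ ^ q) := fun u hu =>
    pair hpq hC T _ b ((h S T _ fun m => le_sup_right).trans (by
      gcongr with m
      exact sup_le ((le_abs_self _).trans (hu m)) (norm_nonneg _)))
  have k1 := k _ fun m => abs_re_le_norm (a m)
  have k2 := k (fun m => -(a m).re) fun m => by simpa using abs_re_le_norm (a m)
  have k3 := k _ fun m => abs_im_le_norm (a m)
  have k4 := k (fun m => -(a m).im) fun m => by simpa using abs_im_le_norm (a m)
  have e : ∑ n ∈ T, ∑ m ∈ S, b n * Hil n m * a m =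
      (∑ n ∈ T, b n * ∑ m ∈ S, Hil n m * ((a m).re ⊔ 0 : ℝ) -
      ∑ n ∈ T, b n * ∑ m ∈ S, Hil n m * (-(a m).re ⊔ 0 : ℝ)) +
      I * (∑ n ∈ T, b n * ∑ m ∈ S, Hil n m * ((a m).im ⊔ 0 : ℝ) -
      ∑ n ∈ T, b n * ∑ m ∈ S, Hil n m * (-(a m).im ⊔ 0 : ℝ)) := by
    simp only [mul_sum, ← sum_sub_distrib, ← sum_add_distrib, ← mul_sub, ← ofReal_sub,
      max_zero_sub_max_neg_zero_eq_self]
    refine sum_congr rfl fun n _ => sum_congr rfl fun m _ => ?_
    linear_combination (-b n * Hil n m) * re_add_im (a m)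
  rw [e]
  refine (norm_add_le _ _).trans ?_
  rw [norm_mul, norm_I, one_mul]
  refine (add_le_add (norm_sub_le _ _) (norm_sub_le _ _)).trans ?_
  linarith

/-- the theorem of M. Riesz for the discrete Hilbert transform -/
theorem riesz (hpq : p.HolderConjugate q) : ∃ C, 0 < C ∧ Bd p q Hil C := by
  rcases le_total p 2 with h | h
  · exact riesz1 hpq h
  · have h2 : q ≤ 2 := by nlinarith [hpq.sub_one_mul_conj, hpq.symm.lt]
    obtain ⟨C, hC, k⟩ := riesz1 hpq.symm h2
    refine ⟨C, hC, ((k.symm.smul (-1)).congr fun n m => ?_).mono (by simp)⟩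
    rw [Hil, Hil, ← neg_sub m n, Int.cast_neg, div_neg, neg_one_mul]

end Pool.Agent.H.MP_0dd021_an
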