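import Pool.Agent.H.MP_0dd021_an.B

set_option autoImplicit false

open Finset Filter Topology Complex
open scoped Real ComplexConjugate Pointwise

namespace Pool.Agent.H.MP_0dd021_an

variable {p q : ℝ}

lemma jen (hp : 1 < p) (S : Finset ℤ) (w : ℤ → ℝ) (a : ℤ → ℂ) (hw : ∀ m, 0 ≤ w m) {W : ℝ}
    (hW : 0 < W) (h : ∑ m ∈ S, w m ≤ W) :
    ‖(W : ℂ)⁻¹ * ∑ m ∈ S, w m * a m‖ ^ p ≤ W⁻¹ * ∑ m ∈ S, w m * ‖a m‖ ^ p := by
  have k := Real.inner_le_weight_mul_Lp_of_nonneg S hp.le (fun m => W⁻¹ * w m) (fun m => ‖a m‖)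
    (fun m => mul_nonneg (by positivity) (hw m)) fun m => norm_nonneg _
  simp only [mul_assoc, ← mul_sum] at k
  have h0 : 0 ≤ W⁻¹ * ∑ m ∈ S, w m * ‖a m‖ ^ p :=
    mul_nonneg (by positivity) (sum_nonneg fun m _ => mul_nonneg (hw m) (by positivity))
  have h1 : (W⁻¹ * ∑ m ∈ S, w m) ^ (1 - p⁻¹) ≤ 1 :=
    Real.rpow_le_one (mul_nonneg (by positivity) (sum_nonneg fun m _ => hw m))
      ((inv_mul_le_one₀ hW).2 h) (sub_nonneg.2 (inv_le_one_of_one_le₀ hp.le))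
  have h2 : ‖(W : ℂ)⁻¹ * ∑ m ∈ S, w m * a m‖ ≤ W⁻¹ * ∑ m ∈ S, w m * ‖a m‖ := by
    rw [norm_mul, norm_inv, norm_real, Real.norm_of_nonneg hW.le]
    gcongr
    exact norm_sum_le_of_le _ fun m _ => by rw [norm_mul, norm_real, Real.norm_of_nonneg (hw m)]
  refine (Real.rpow_le_rpow (norm_nonneg _) (h2.trans (k.trans
    (mul_le_of_le_one_left (by positivity) h1))) (by linarith)).trans_eq ?_
  exact Real.rpow_inv_rpow h0 (by linarith)

/-- weighted bound -/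
def WB (p q : ℝ) (Ψ : ℤ → ℝ) (κ : ℤ → ℤ → ℂ) (C : ℝ) : Prop :=
  ∀ (t : ℤ) (S T : Finset ℤ) (a b : ℤ → ℂ),
    ‖∑ n ∈ T, ∑ m ∈ S, b n * (Ψ (t + n) * Ψ (t + m) * κ n m) * a m‖ ≤
      C * (∑ m ∈ S, Ψ (t + m) * ‖a m‖ ^ p + ∑ n ∈ T, Ψ (t + n) * ‖b n‖ ^ q)

lemma blk (hpq : p.HolderConjugate q) {K : ℤ → ℤ → ℂ} {C : ℝ} (hC : 0 ≤ C) (h : Bd p q K C)
    {L : ℕ} (hL : 0 < L) {Ψ : ℤ → ℝ} (h0 : ∀ t, 0 ≤ Ψ t)
    (h1 : ∀ s : ℤ, ∑ t ∈ range L, Ψ (s + t) ≤ 2 * L) :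
    WB p q Ψ (fun n m => K (n / L) (m / L) / L) (2 * C) := fun t S T a b => by
  have L0 : (0 : ℝ) < 2 * L := by positivity
  have L1 : (L : ℂ) ≠ 0 := by exact_mod_cast hL.ne'
  have L2 : (0 : ℤ) < L := by exact_mod_cast hL
  have k : ∀ (r : ℝ) (U : Finset ℤ) (c : ℤ → ℂ), 1 < r → ∑ j ∈ U.image (· / (L : ℤ)),
      ‖((2 * L : ℝ) : ℂ)⁻¹ * ∑ m ∈ U with m / L = j, Ψ (t + m) * c m‖ ^ r ≤
      (2 * L : ℝ)⁻¹ * ∑ m ∈ U, Ψ (t + m) * ‖c m‖ ^ r := fun r U c hr => by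
    rw [← sum_fiberwise_of_maps_to (s := U) (fun m hm => mem_image_of_mem (· / (L : ℤ)) hm),
      mul_sum]
    refine sum_le_sum fun j _ => jen hr _ _ _ (fun m => h0 _) L0 (le_trans ?_ (h1 (t + L * j)))
    have : U.filter (fun m => m / L = j) ⊆ (range L).image fun i : ℕ => L * j + i := fun m hm => by
      have e := Int.mul_ediv_add_emod m L
      have e1 := Int.emod_nonneg m L2.ne'
      have e2 := Int.emod_lt_of_pos m L2
      rw [(mem_filter.1 hm).2] at e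
      exact mem_image.2 ⟨(m % L).toNat, mem_range.2 (by omega), by omega⟩
    refine (sum_le_sum_of_subset_of_nonneg this fun _ _ _ => h0 _).trans_eq ?_
    rw [sum_image fun _ _ _ _ h => by simpa using h]
    simp only [add_assoc]
  have k1 := h (S.image (· / (L : ℤ))) (T.image (· / (L : ℤ)))
    (fun j => ((2 * L : ℝ) : ℂ)⁻¹ * ∑ m ∈ S with m / L = j, Ψ (t + m) * a m)
    (fun j => ((2 * L : ℝ) : ℂ)⁻¹ * ∑ m ∈ T with m / L = j, Ψ (t + m) * b m)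
  have k2 := k1.trans (mul_le_mul_of_nonneg_left (add_le_add (k p S a hpq.lt)
    (k q T b hpq.symm.lt)) hC)
  refine le_trans (le_of_eq ?_) ((mul_le_mul_of_nonneg_left k2 (by positivity :
    (0 : ℝ) ≤ 4 * L)).trans_eq (by field_simp; ring))
  rw [show (4 * L : ℝ) = ‖(4 * L : ℂ)‖ by simp, ← norm_mul,
    ← sum_fiberwise_of_maps_to (fun m hm => mem_image_of_mem (· / (L : ℤ)) hm), mul_sum]
  congr 1
  refine sum_congr rfl fun i _ => ?_
  simp only [← sum_fiberwise_of_maps_to (s := S) (fun m hm => mem_image_of_mem (· / (L : ℤ)) hm)]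
  rw [sum_comm, mul_sum]
  refine sum_congr rfl fun j _ => ?_
  simp only [mul_sum, sum_mul]
  rw [sum_comm]
  refine sum_congr rfl fun m hm => sum_congr rfl fun n hn => ?_
  rw [(mem_filter.1 hm).2, (mem_filter.1 hn).2]
  push_cast
  field_simp
  ring

lemma WB.dom {Ψ : ℤ → ℝ} {κ E : ℤ → ℤ → ℂ} {C : ℝ} (h : WB p q Ψ κ C) (h0 : ∀ t, 0 ≤ Ψ t)
    (hE : ∀ n m, ‖E n m‖ ≤ (κ n m).re) : WB p q Ψ E C := fun t S T a b => by
  have k := h t S T (fun m => ‖a m‖) fun n => ‖b n‖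
  simp only [norm_real, norm_norm] at k
  refine le_trans ?_ ((re_le_norm _).trans k)
  simp only [re_sum]
  refine norm_sum_le_of_le _ fun n _ => norm_sum_le_of_le _ fun m _ => ?_
  simp only [norm_mul, norm_real, Real.norm_of_nonneg (h0 _), re_mul_ofReal, mul_assoc,
    re_ofReal_mul]
  have := h0 (t + n)
  have := h0 (t + m)
  gcongr
  exact hE n m

lemma WB.lim {Ψ : ℤ → ℝ} {κ ω : ℤ → ℤ → ℂ} {C : ℝ} (h : WB p q Ψ κ C)
    (h1 : ∀ n m, Tendsto (fun R : ℕ => (R : ℂ)⁻¹ * ∑ t ∈ range R, (Ψ (t + n) * Ψ (t + m) : ℂ))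
      atTop (𝓝 (ω n m)))
    (h2 : ∀ m, Tendsto (fun R : ℕ => (R : ℝ)⁻¹ * ∑ t ∈ range R, Ψ (t + m)) atTop (𝓝 1)) :
    Bd p q (fun n m => ω n m * κ n m) C := fun S T a b => by
  have l1 := (tendsto_finsetSum T fun n _ => tendsto_finsetSum S fun m _ =>
    (((h1 n m).mul_const (κ n m)).const_mul (b n)).mul_const (a m)).norm
  have l2 := ((tendsto_finsetSum S fun m _ => (h2 m).mul_const (‖a m‖ ^ p)).add
    (tendsto_finsetSum T fun m _ => (h2 m).mul_const (‖b m‖ ^ q))).const_mul C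
  simp only [one_mul] at l2
  refine le_of_tendsto_of_tendsto' l1 l2 fun R => ?_
  have k := mul_le_mul_of_nonneg_left ((norm_sum_le _ _).trans
    (sum_le_sum fun (t : ℕ) (_ : t ∈ range R) => h t S T a b)) (by positivity : 0 ≤ (R : ℝ)⁻¹)
  rw [show (R : ℝ)⁻¹ = ‖(R : ℂ)⁻¹‖ by simp, ← norm_mul, norm_inv, norm_natCast] at k
  convert k using 1
  · congr 1
    simp only [mul_sum, sum_mul, sum_comm (s := range R)]
    exact sum_congr rfl fun _ _ => sum_congr rfl fun _ _ => sum_congr rfl fun _ _ => by ring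
  · simp only [mul_sum, sum_mul, sum_comm (s := range R), mul_add, sum_add_distrib]
    congr 1 <;> exact sum_congr rfl fun _ _ => sum_congr rfl fun _ _ => by ring

lemma err {L : ℕ} (hL : 0 < L) {n m : ℤ} (h : 2 ≤ |n / L - m / L|) :
    n - m ≠ 0 ∧ ‖Hil n m - Hil (n / L) (m / L) / L‖ ≤ 3 * (qq (n / L - m / L) / L) := by
  have L2 : (0 : ℤ) < L := by exact_mod_cast hL
  have e := Int.mul_ediv_add_emod m L
  have e1 := Int.emod_nonneg m L2.ne'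
  have e2 := Int.emod_lt_of_pos m L2
  have f := Int.mul_ediv_add_emod n L
  have f1 := Int.emod_nonneg n L2.ne'
  have f2 := Int.emod_lt_of_pos n L2
  simp only [Hil]
  generalize hj : n / L - m / L = j at *
  obtain ⟨ρ, hρ, hd⟩ : ∃ ρ : ℤ, |ρ| ≤ L ∧ n - m = L * j + ρ :=
    ⟨n % L - m % L, abs_le.2 ⟨by omega, by omega⟩, by rw [← hj]; linarith⟩
  rw [hd]
  have k : L * (|j| - 1) ≤ |L * j + ρ| := by
    have := abs_sub_abs_le_abs_add (L * j) ρ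
    rw [abs_mul, abs_of_pos L2] at this
    linarith
  have k0 : L * j + ρ ≠ 0 := abs_pos.1 (by nlinarith)
  refine ⟨k0, ?_⟩
  have k1 : ((L * j + ρ : ℤ) : ℂ) ≠ 0 := by exact_mod_cast k0
  have k2 : (j : ℂ) ≠ 0 := by exact_mod_cast abs_pos.1 (by linarith)
  have k3 : (L : ℂ) ≠ 0 := by exact_mod_cast hL.ne'
  have e3 : 1 / ((L * j + ρ : ℤ) : ℂ) - 1 / j / L = -ρ / ((L * j + ρ : ℤ) * (j * L)) := by
    field_simp
    push_cast
    ring
  rw [e3, norm_div, norm_neg, norm_mul, norm_mul, norm_intCast, norm_intCast, norm_intCast,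
    norm_natCast, qq, div_div, mul_one_div, ← sq_abs]
  have g1 : |(ρ : ℝ)| ≤ L := by exact_mod_cast hρ
  have g2 : (2 : ℝ) ≤ |(j : ℝ)| := by exact_mod_cast h
  have g3 : (L : ℝ) * (|(j : ℝ)| - 1) ≤ |((L * j + ρ : ℤ) : ℝ)| := by exact_mod_cast k
  have g4 : (0 : ℝ) < L := by exact_mod_cast hL
  calc _ ≤ L / (L * (|(j : ℝ)| - 1) * (|(j : ℝ)| * L)) := by
        gcongr
        exact mul_pos (mul_pos g4 (by linarith)) (by positivity)
    _ ≤ _ := by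
        rw [div_le_div_iff₀ (mul_pos (mul_pos g4 (by linarith)) (by positivity)) (by positivity)]
        have : 0 ≤ (L : ℝ) * L * (3 * (|(j : ℝ)| - 1) * |(j : ℝ)| - (1 + |(j : ℝ)| ^ 2)) :=
          mul_nonneg (by positivity) (by nlinarith)
        nlinarith

lemma kern (hpq : p.HolderConjugate q) : ∃ C, 0 < C ∧ ∀ (L : ℕ) (Ψ : ℤ → ℝ) (ω : ℤ → ℤ → ℂ)
    (k u v : ℤ → ℂ), 0 < L → (∀ t, 0 ≤ Ψ t) → (∀ s : ℤ, ∑ t ∈ range L, Ψ (s + t) ≤ 2 * L) →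
    (∀ n m, Tendsto (fun R : ℕ => (R : ℂ)⁻¹ * ∑ t ∈ range R, (Ψ (t + n) * Ψ (t + m) : ℂ))
      atTop (𝓝 (ω n m))) →
    (∀ m, Tendsto (fun R : ℕ => (R : ℝ)⁻¹ * ∑ t ∈ range R, Ψ (t + m)) atTop (𝓝 1)) →
    (∀ n, ‖u n‖ = 1) → (∀ n, ‖v n‖ = 1) → (∀ d, ‖k d‖ ≤ 1 / L) →
    (∀ n m, n - m ≠ 0 → k (n - m) = (2 * π * I)⁻¹ * (1 - u n * v m) * Hil n m) →
    Bd p q (fun n m => ω n m * k (n - m)) C := by
  obtain ⟨C, hC, hH⟩ := riesz hpq
  obtain ⟨D, hD, hQ⟩ := qq_bd hpq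
  have c1 : ‖(2 * π * I : ℂ)⁻¹‖ ≤ 1 / 2 := by
    simp only [norm_inv, norm_mul, norm_I, norm_real, norm_ofNat, Real.norm_of_nonneg Real.pi_pos.le]
    rw [one_div]
    gcongr
    linarith [Real.pi_gt_three]
  refine ⟨‖(2 * π * I : ℂ)⁻¹‖ * (2 * C + ‖(-1 : ℂ)‖ * (2 * C)) + 2 * (‖(4 : ℂ)‖ * D),
    add_pos_of_nonneg_of_pos (by positivity) (mul_pos two_pos (mul_pos (by simp) hD)),
    fun L Ψ ω k u v hL h0 h1 h2 h3 hu hv hk hk' => ?_⟩
  have b1 := (blk hpq hC.le hH hL h0 h1).lim h2 h3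
  have g4 : (0 : ℝ) < L := by exact_mod_cast hL
  have b2 := ((blk hpq (by positivity) (hQ.smul 4) hL h0 h1).dom h0 (E := fun n m =>
    k (n - m) - (2 * π * I)⁻¹ * (1 - u n * v m) * (Hil (n / L) (m / L) / L)) fun n m => ?_).lim h2 h3
  · exact (((b1.add ((b1.mod u v hu hv).smul (-1))).smul _).add b2).congr fun n m => by ring
  have c2 : ‖(2 * π * I : ℂ)⁻¹ * (1 - u n * v m)‖ ≤ 1 := by
    have := norm_sub_le 1 (u n * v m)
    rw [norm_mul, hu, hv, norm_one] at this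
    rw [norm_mul]
    nlinarith [norm_nonneg (1 - u n * v m), norm_nonneg (2 * π * I : ℂ)⁻¹]
  have e : (4 * (qq (n / L - m / L) : ℂ) / L).re = 4 * (qq (n / L - m / L) / L) := by
    rw [div_natCast_re, mul_div_assoc']
    simp
  have q0 := qq_pos (n / L - m / L)
  rw [e]
  rcases le_or_gt 2 |n / L - m / L| with h | h
  · obtain ⟨e1, e2⟩ := err hL h
    rw [hk' n m e1, ← mul_sub, norm_mul]
    refine (mul_le_mul c2 e2 (norm_nonneg _) zero_le_one).trans ?_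
    have : 0 < qq (n / L - m / L) / L := by positivity
    linarith
  · have c3 : ‖Hil (n / L) (m / L) / L‖ ≤ 1 / L := by
      rw [norm_div, Complex.norm_natCast, Hil, norm_div, norm_one, norm_intCast]
      gcongr
      rcases eq_or_ne (n / L - m / L) 0 with h | h
      · simp [h]
      · exact div_le_one_of_le₀ (by exact_mod_cast Int.one_le_abs h) (abs_nonneg _)
    have c4 : 1 / 2 ≤ qq (n / L - m / L) := by
      have : |((n / L - m / L : ℤ) : ℝ)| ≤ 1 := by exact_mod_cast Int.lt_add_one_iff.1 h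
      rw [qq]
      gcongr
      nlinarith [sq_le_one_iff_abs_le_one _ |>.2 this]
    refine (norm_sub_le _ _).trans ?_
    rw [norm_mul]
    refine (add_le_add (hk _) (mul_le_mul c2 c3 (norm_nonneg _) zero_le_one)).trans ?_
    have := div_le_div_of_nonneg_right c4 g4.le
    have e : 1 / 2 / (L : ℝ) = 1 / L / 2 := by ring
    linarith

end Pool.Agent.H.MP_0dd021_an
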