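import Pool.Agent.H.MP_0dd021_an.C

set_option autoImplicit false

open Finset Filter Topology Complex MeasureTheory AddCircle
open scoped Real ComplexConjugate Pointwise

namespace Pool.Agent.H.MP_0dd021_an

variable {p q : ℝ}

abbrev TT := UnitAddCircle

noncomputable abbrev mu : Measure TT := haarAddCircle

noncomputable def rep (θ : TT) : ℝ := equivIco 1 0 θ

lemma rep_coe (x : ℝ) : rep x = Int.fract x := by simp [rep]

lemma coe_rep (θ : TT) : (rep θ : TT) = θ := coe_equivIco

lemma rep_nonneg (θ : TT) : 0 ≤ rep θ := (equivIco 1 0 θ).2.1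

lemma rep_lt (θ : TT) : rep θ < 1 := (equivIco 1 0 θ).2.2.trans_eq (zero_add 1)

lemma rep_of {x : ℝ} (h0 : 0 ≤ x) (h1 : x < 1) : rep x = x := by
  rw [rep_coe, Int.fract_eq_self.2 ⟨h0, h1⟩]

@[fun_prop] lemma rep_meas : Measurable rep :=
  measurable_subtype_coe.comp (measurableEquivIco 1 0).measurable

@[fun_prop] lemma coe_meas : Measurable fun x : ℝ => (x : TT) := AddCircle.measurable_mk'

lemma fnorm (n : ℤ) (θ : TT) : ‖fourier n θ‖ = 1 := by rw [fourier_apply, Circle.norm_coe]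

lemma fadd (n : ℤ) (x y : TT) : fourier n (x + y) = fourier n x * fourier n y := by
  simp only [fourier_apply, smul_add, toCircle_add, Circle.coe_mul]

lemma fneg (n : ℤ) (x : TT) : fourier n (-x) = fourier (-n) x := by
  simp only [fourier_apply, smul_neg, neg_smul]

lemma fpow (t : ℕ) (x : TT) : fourier t x = fourier 1 x ^ t := by
  rw [fourier_one, fourier_apply, natCast_zsmul, toCircle_nsmul, Circle.coe_pow]

lemma fne {x : TT} (h : x ≠ 0) : fourier 1 x ≠ 1 := fun k => h (by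
  rw [fourier_one, Circle.coe_eq_one, ← toCircle_zero (T := 1)] at k
  exact injective_toCircle one_ne_zero k)

lemma geo {x : TT} (h : x ≠ 0) (s : ℤ) (L : ℕ) : ∑ t ∈ range L, fourier (s + t) x =
    fourier s x * ((fourier L x - 1) / (fourier 1 x - 1)) := by
  simp only [fourier_add, ← mul_sum, fpow, geom_sum_eq (fne h)]

lemma geo_bd {x : TT} (h : x ≠ 0) (s : ℤ) (L : ℕ) :
    ‖∑ t ∈ range L, fourier (s + t) x‖ ≤ 2 / ‖fourier 1 x - 1‖ := by
  rw [geo h, norm_mul, fnorm, one_mul, norm_div]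
  gcongr
  exact (norm_sub_le _ _).trans (by rw [fnorm]; norm_num)

lemma av (x : TT) : Tendsto (fun R : ℕ => (R : ℂ)⁻¹ * ∑ t ∈ range R, fourier t x) atTop
    (𝓝 (if x = 0 then 1 else 0)) := by
  split_ifs with h
  · refine tendsto_const_nhds.congr' ?_
    filter_upwards [eventually_ne_atTop 0] with R hR
    simp [h, hR]
  · refine squeeze_zero_norm (fun R => ?_)
      (tendsto_const_div_atTop_nhds_zero_nat (2 / ‖fourier 1 x - 1‖))
    have := geo_bd h 0 R
    simp only [zero_add] at this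
    rw [norm_mul, norm_inv, Complex.norm_natCast, inv_mul_eq_div]
    gcongr

noncomputable def ind (α : ℝ) (θ : TT) : ℂ := if rep θ < α then 1 else 0

lemma ind_norm (α : ℝ) (θ : TT) : ‖ind α θ‖ ≤ 1 := by
  unfold ind
  split_ifs <;> simp

@[fun_prop] lemma ind_meas {X : Type} [MeasurableSpace X] {α : X → ℝ} {θ : X → TT}
    (h : Measurable α) (h' : Measurable θ) : Measurable fun x => ind (α x) (θ x) :=
  Measurable.ite (measurableSet_lt (rep_meas.comp h') h) measurable_const measurable_const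

lemma ind_fc {δ : ℝ} (h0 : 0 ≤ δ) (h1 : δ ≤ 1) (d : ℤ) :
    fourierCoeff (ind δ) d = ∫ x in (0 : ℝ)..δ, fourier (-d) (x : TT) := by
  rw [fourierCoeff_eq_intervalIntegral _ _ 0, div_one, one_smul, zero_add,
    ← intervalIntegral.integral_indicator ⟨h0, h1⟩]
  refine intervalIntegral.integral_congr_ae ?_
  filter_upwards [compl_mem_ae_iff.2 (measure_singleton (1 : ℝ)),
    compl_mem_ae_iff.2 (measure_singleton δ)] with x hx hy hz
  rw [Set.uIoc_of_le zero_le_one] at hz
  rw [ind, rep_of hz.1.le (hz.2.lt_of_ne hx), Set.indicator_apply]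
  simp [lt_iff_le_and_ne, show x ≠ δ from hy]

lemma ind_fc1 {δ : ℝ} (h0 : 0 ≤ δ) (h1 : δ ≤ 1) (d : ℤ) : ‖fourierCoeff (ind δ) d‖ ≤ δ := by
  rw [ind_fc h0 h1]
  simpa [abs_of_nonneg h0] using intervalIntegral.norm_integral_le_of_norm_le_const
    (a := 0) (b := δ) fun (x : ℝ) _ => (fnorm (-d) x).le

lemma ind_fc2 {δ : ℝ} (h0 : 0 ≤ δ) (h1 : δ ≤ 1) {d : ℤ} (hd : d ≠ 0) :
    fourierCoeff (ind δ) d = (2 * π * I)⁻¹ * (1 - fourier (-d) (δ : TT)) * (1 / d) := by
  rw [ind_fc h0 h1, intervalIntegral.integral_eq_sub_of_hasDerivAt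
    (fun x _ => has_antideriv_at_fourier_neg (T := 1) inferInstance hd x)
    (Continuous.intervalIntegrable ((map_continuous _).comp continuous_quot_mk) _ _)]
  have : (d : ℂ) ≠ 0 := by exact_mod_cast hd
  simp only [QuotientAddGroup.mk_zero, fourier_eval_zero, ofReal_one]
  field_simp
  ring

/-- bounded Borel functions -/
def Ni (F : TT → ℂ) : Prop := Measurable F ∧ ∃ B, ∀ θ, ‖F θ‖ ≤ B

lemma Ni.memLp {F : TT → ℂ} (h : Ni F) (r : ENNReal) : MemLp F r mu := by
  obtain ⟨h, B, hB⟩ := h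
  exact MemLp.of_bound h.aestronglyMeasurable B (Eventually.of_forall hB)

lemma Ni.int {F : TT → ℂ} (h : Ni F) : Integrable F mu := memLp_one_iff_integrable.1 (h.memLp 1)

lemma Ni.mul {F G : TT → ℂ} (h : Ni F) (h' : Ni G) : Ni fun θ => F θ * G θ := by
  obtain ⟨h, B, hB⟩ := h
  obtain ⟨h', B', hB'⟩ := h'
  exact ⟨h.mul h', B * B', fun θ => (norm_mul_le _ _).trans
    (mul_le_mul (hB θ) (hB' θ) (norm_nonneg _) ((norm_nonneg _).trans (hB θ)))⟩

lemma Ni.add {F G : TT → ℂ} (h : Ni F) (h' : Ni G) : Ni fun θ => F θ + G θ := by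
  obtain ⟨h, B, hB⟩ := h
  obtain ⟨h', B', hB'⟩ := h'
  exact ⟨h.add h', B + B', fun θ => norm_add_le_of_le (hB θ) (hB' θ)⟩

lemma Ni.const (c : ℂ) : Ni fun _ => c := ⟨measurable_const, ‖c‖, fun _ => le_rfl⟩

lemma Ni.comp {F : TT → ℂ} (h : Ni F) {g : TT → TT} (hg : Measurable g) : Ni fun θ => F (g θ) := by
  obtain ⟨h, B, hB⟩ := h
  exact ⟨h.comp hg, B, fun θ => hB _⟩

lemma ind_ni (α : ℝ) : Ni (ind α) := ⟨ind_meas measurable_const measurable_id, 1, ind_norm α⟩

/-- multipliers -/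
def Mu (p q : ℝ) (F : TT → ℂ) (C : ℝ) : Prop := Bd p q (fun n m => fourierCoeff F (n - m)) C

variable {F G : TT → ℂ} {C D : ℝ}

lemma fc_shift (F : TT → ℂ) (γ : TT) (n : ℤ) :
    fourierCoeff (fun θ => F (θ - γ)) n = fourier (-n) γ * fourierCoeff F n := by
  simp only [fourierCoeff, smul_eq_mul]
  rw [← integral_add_right_eq_self _ γ, ← integral_const_mul]
  simp only [fadd, add_sub_cancel_right, mul_assoc, mul_left_comm]

lemma Mu.shift (h : Mu p q F C) (γ : TT) : Mu p q (fun θ => F (θ + γ)) C :=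
  (Bd.mod h (fun n => fourier n γ) (fun m => fourier (-m) γ) (fun _ => fnorm _ _)
    fun _ => fnorm _ _).congr fun n m => by
    simp only [← sub_neg_eq_add _ γ, fc_shift, fneg, neg_neg, sub_eq_add_neg n m, fourier_add]
    ring

lemma Mu.add (h : Mu p q F C) (h' : Mu p q G D) (k : Ni F) (k' : Ni G) :
    Mu p q (fun θ => F θ + G θ) (C + D) :=
  (Bd.add h h').congr fun _ _ => congrFun (fourierCoeff.add k.int k'.int) _

lemma pars (k : Ni F) (k' : Ni G) (n : ℤ) : HasSum (fun j => fourierCoeff F (n - j) *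
    fourierCoeff G j) (fourierCoeff (fun θ => F θ * G θ) n) := by
  have k1 : Ni fun θ => conj (fourier (-n) θ * F θ) := by
    obtain ⟨h, B, hB⟩ := k
    exact ⟨continuous_conj.measurable.comp ((map_continuous _).measurable.mul h), B, fun θ => by
      rw [norm_conj, norm_mul, fnorm, one_mul]; exact hB θ⟩
  have h := fourierBasis.hasSum_inner_mul_inner (k1.memLp 2).toLp (k'.memLp 2).toLp
  refine (congr (congrArg HasSum ?_) ?_ :_ = _).mpr h
  · funext j
    rw [← inner_conj_symm, ← fourierBasis.repr_apply_apply, ← fourierBasis.repr_apply_apply,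
      fourierBasis_repr, fourierBasis_repr, fourierCoeff_congr_ae (k1.memLp 2).coeFn_toLp,
      fourierCoeff_congr_ae (k'.memLp 2).coeFn_toLp]
    congr 1
    simp only [fourierCoeff, ← integral_conj, smul_eq_mul, map_mul, conj_conj, neg_sub,
      sub_eq_add_neg j n, fourier_add, fourier_neg (n := j), mul_assoc]
  · rw [L2.inner_def, fourierCoeff]
    refine integral_congr_ae ?_
    filter_upwards [(k1.memLp 2).coeFn_toLp, (k'.memLp 2).coeFn_toLp] with θ h1 h2
    rw [h1, h2, RCLike.inner_apply', conj_conj, smul_eq_mul, mul_assoc]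

lemma Mu.mul (hpq : p.HolderConjugate q) (h : Mu p q F C) (h' : Mu p q G D) (hC : 0 ≤ C)
    (hD : 0 < D) (k : Ni F) (k' : Ni G) :
    Mu p q (fun θ => F θ * G θ) (2 * D * C) := fun S T a b => by
  have l := hasSum_sum fun n (_ : n ∈ T) => hasSum_sum fun m (_ : m ∈ S) =>
    (((Equiv.subRight m).hasSum_iff.2 (pars k k' (n - m))).mul_left (b n)).mul_right (a m)
  refine le_of_tendsto' l.norm fun U => ?_
  have h2 : (0 : ℝ) < 2 * D := by positivity
  have h3 : ((2 * D : ℝ) : ℂ) ≠ 0 := by exact_mod_cast h2.ne'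
  have k1 := h U T (fun j => (∑ m ∈ S, fourierCoeff G (j - m) * a m) / (2 * D : ℝ)) b
  have k2 := Bd.lp hpq hD h' S U a
  simp only [norm_div, norm_real, Real.norm_of_nonneg h2.le,
    Real.div_rpow (norm_nonneg _) h2.le, ← sum_div] at k1
  rw [← div_le_iff₀' (by positivity)] at k2
  have k3 := mul_le_mul_of_nonneg_left (k1.trans (mul_le_mul_of_nonneg_left
    (add_le_add k2 le_rfl) hC)) h2.le
  rw [← mul_assoc] at k3
  refine le_trans (le_of_eq ?_) k3
  rw [sum_comm]
  have e : ∀ z : ℂ, 2 * D * ‖z‖ = ‖((2 * D : ℝ) : ℂ) * z‖ := fun z => by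
    rw [norm_mul, norm_real, Real.norm_of_nonneg h2.le]
  rw [e]
  simp only [mul_sum, sum_div]
  congr 1
  refine sum_congr rfl fun _ _ => sum_congr rfl fun _ _ => sum_congr rfl fun _ _ => ?_
  simp only [Function.comp, Equiv.subRight_apply, sub_sub_sub_cancel_right]
  field_simp

lemma Mu.integ {Φ : TT → TT → ℂ} {B : ℝ} (hm : Measurable (Function.uncurry Φ))
    (hb : ∀ η θ, ‖Φ η θ‖ ≤ B) (h : ∀ η, Mu p q (Φ η) C) :
    Mu p q (fun θ => ∫ η, Φ η θ ∂mu) C := fun S T a b => by
  have i : ∀ n : ℤ, Integrable (Function.uncurry fun η θ => fourier (-n) θ • Φ η θ)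
      (mu.prod mu) := fun n => by
    refine Integrable.of_bound (Measurable.aestronglyMeasurable ?_) B
      (Eventually.of_forall fun z => ?_)
    · exact (((map_continuous (fourier (-n))).measurable.comp measurable_snd).mul hm :)
    · simpa [Function.uncurry, fnorm] using hb z.1 z.2
  have e : ∀ n, fourierCoeff (fun θ => ∫ η, Φ η θ ∂mu) n = ∫ η, fourierCoeff (Φ η) n ∂mu :=
    fun n => by simp only [fourierCoeff, integral_integral_swap (i n), integral_smul]
  have i2 : ∀ n m, Integrable (fun η => b n * fourierCoeff (Φ η) (n - m) * a m) mu :=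
    fun n m => ((i (n - m)).integral_prod_left.const_mul _).mul_const _
  simp only [e, ← integral_const_mul, ← integral_mul_const, ← integral_finsetSum _ fun m _ => i2 _ m]
  rw [← integral_finsetSum _ fun n _ => integrable_finsetSum _ fun m _ => i2 n m]
  simpa using norm_integral_le_of_norm_le_const (μ := mu)
    (Eventually.of_forall fun η => h η S T a b)

end Pool.Agent.H.MP_0dd021_an
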