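import Pool.Agent.H.MP_0dd021_an.D

set_option autoImplicit false

open Finset Filter Topology Complex MeasureTheory AddCircle
open scoped Real ComplexConjugate Pointwise Classical

namespace Pool.Agent.H.MP_0dd021_an

variable {p q : ℝ}

noncomputable def psi (F : Finset TT) (γ : TT) : ℝ := #{y ∈ F | y + γ ∈ F} / #F

noncomputable def HH (F : Finset TT) (δ : ℝ) (θ : TT) : ℂ :=
  ∑ γ ∈ F - F, (psi F γ : ℂ) ^ 2 * ind δ (θ - γ)

noncomputable def Ps (F : Finset TT) (t : ℤ) : ℝ := ‖∑ x ∈ F, fourier (-t) x‖ ^ 2 / #F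

lemma psi_nonneg (F : Finset TT) (γ : TT) : 0 ≤ psi F γ := by unfold psi; positivity

lemma psi_le (F : Finset TT) (γ : TT) : psi F γ ≤ 1 :=
  div_le_one_of_le₀ (by exact_mod_cast card_filter_le _ _) (by positivity)

lemma psi_one {F : Finset TT} (hF : F.Nonempty) {γ : TT} (h : ∀ y ∈ F, y + γ ∈ F) :
    psi F γ = 1 := by
  rw [psi, filter_true_of_mem h, div_self (by exact_mod_cast hF.card_pos.ne')]

lemma Ps_eq (F : Finset TT) (t : ℤ) :
    (Ps F t : ℂ) = ∑ γ ∈ F - F, psi F γ * fourier (-t) γ := by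
  simp only [Ps, psi, ofReal_div, ofReal_pow, ofReal_natCast, div_mul_eq_mul_div, ← sum_div]
  congr 1
  simp only [← conj_mul', map_sum, sum_mul, mul_sum, card_filter, Nat.cast_sum, Nat.cast_ite,
    Nat.cast_one, Nat.cast_zero, ite_mul, one_mul, zero_mul]
  rw [sum_comm, sum_comm (s := F - F)]
  refine sum_congr rfl fun y hy => ?_
  rw [← sum_filter]
  refine sum_nbij' (· - y) (y + ·) (fun x hx => ?_) (fun x hx => ?_) (by simp) (by simp)
    fun x _ => ?_
  · simpa [hx] using sub_mem_sub hx hy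
  · exact (mem_filter.1 hx).2
  · rw [sub_eq_add_neg, fadd, fneg, fourier_neg (n := -t), mul_comm]

lemma Ps_eq' (F : Finset TT) (t : ℤ) :
    (Ps F t : ℂ) = ∑ γ ∈ F - F, psi F γ * fourier t γ := by
  rw [← conj_ofReal, Ps_eq]
  simp only [map_sum, map_mul, conj_ofReal, fourier_neg, conj_conj]

lemma zero_mem {F : Finset TT} (hF : F.Nonempty) : 0 ∈ F - F := by
  obtain ⟨x, hx⟩ := hF
  simpa using sub_mem_sub hx hx

lemma Ps_blk {F : Finset TT} (hF : F.Nonempty) (s : ℤ) (L : ℕ) : ∑ t ∈ range L, Ps F (s + t) ≤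
    L + ∑ γ ∈ (F - F).erase 0, ‖∑ t ∈ range L, fourier (s + t) γ‖ := by
  refine (Real.le_norm_self _).trans ?_
  rw [← norm_real, ofReal_sum]
  simp only [Ps_eq']
  rw [sum_comm, ← add_sum_erase _ _ (zero_mem hF)]
  refine norm_add_le_of_le (by simp [psi_one hF]) (norm_sum_le_of_le _ fun γ _ => ?_)
  rw [← mul_sum, norm_mul, norm_real, Real.norm_of_nonneg (psi_nonneg _ _)]
  exact mul_le_of_le_one_left (norm_nonneg _) (psi_le _ _)

lemma HH_ni (F : Finset TT) (δ : ℝ) : Ni (HH F δ) :=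
  ⟨by unfold HH; fun_prop, ∑ γ ∈ F - F, ‖(psi F γ : ℂ) ^ 2‖, fun θ =>
    norm_sum_le_of_le _ fun γ _ => by
      rw [norm_mul]; exact mul_le_of_le_one_right (norm_nonneg _) (ind_norm _ _)⟩

lemma stepm (hpq : p.HolderConjugate q) : ∃ C, 0 < C ∧ ∀ (F : Finset TT) (L : ℕ) (δ : ℝ),
    F.Nonempty → 0 < L → 0 ≤ δ → δ ≤ 1 / L →
    (∀ s : ℤ, ∑ γ ∈ (F - F).erase 0, ‖∑ t ∈ range L, fourier (s + t) γ‖ ≤ L) →
    Mu p q (HH F δ) C := by
  obtain ⟨C, hC, h⟩ := kern hpq
  refine ⟨C, hC, fun F L δ hF hL h0 h1 h2 => ?_⟩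
  have h3 : δ ≤ 1 := h1.trans (div_le_one_of_le₀ (by exact_mod_cast hL) (by positivity))
  refine (h L (Ps F) (fun n m => ∑ γ ∈ F - F, (psi F γ : ℂ) ^ 2 * fourier (-(n - m)) γ)
    (fourierCoeff (ind δ)) (fun n => fourier (-n) (δ : TT)) (fun m => fourier m (δ : TT)) hL
    (fun t => by unfold Ps; positivity) (fun s => (Ps_blk hF s L).trans (by linarith [h2 s]))
    (fun n m => ?_) (fun m => ?_) (fun _ => fnorm _ _) (fun _ => fnorm _ _)
    (fun d => (ind_fc1 h0 h3 d).trans h1) fun n m hd => ?_).congr fun n m => ?_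
  · have l := tendsto_finsetSum (F - F) fun γ _ => tendsto_finsetSum (F - F) fun γ' _ =>
      (av (γ' - γ)).const_mul (psi F γ * fourier (-n) γ * (psi F γ' * fourier m γ'))
    simp only [sub_eq_zero, mul_ite, mul_one, mul_zero, sum_ite_eq'] at l
    rw [sum_congr rfl (g := fun γ => (psi F γ : ℂ) ^ 2 * fourier (-(n - m)) γ) fun γ hγ => by
      rw [if_pos hγ, neg_sub, sub_eq_add_neg m, fourier_add]; ring] at l
    refine l.congr fun R => ?_
    simp only [Ps_eq F (_ + n), Ps_eq' F (_ + m), sum_mul_sum]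
    simp only [mul_sum, sum_comm (s := range R)]
    refine sum_congr rfl fun _ _ => sum_congr rfl fun _ _ => sum_congr rfl fun _ _ => ?_
    simp only [sub_eq_add_neg, fadd, fneg, neg_add, fourier_add]
    ring
  · have l := tendsto_finsetSum (F - F) fun γ _ => (av γ).const_mul (psi F γ * fourier m γ)
    simp only [mul_ite, mul_one, mul_zero, sum_ite_eq', if_pos (zero_mem hF), fourier_eval_zero,
      psi_one hF (γ := 0) (by simp)] at l
    refine tendsto_ofReal_iff.1 (l.congr fun R => ?_)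
    simp only [ofReal_mul, ofReal_sum, Ps_eq', mul_sum, sum_comm (s := range R), fourier_add,
      ofReal_inv, ofReal_natCast]
    exact sum_congr rfl fun _ _ => sum_congr rfl fun _ _ => by ring
  · rw [ind_fc2 h0 h3 hd, Hil, neg_sub, sub_eq_add_neg m, fourier_add, mul_comm (fourier m _)]
  · have := congrFun (fourierCoeff.sum (F - F) (fun γ θ => (psi F γ : ℂ) ^ 2 * ind δ (θ - γ))
      fun γ _ => ((Ni.const _).mul ((ind_ni δ).comp (by fun_prop))).int) (n - m)
    simp only [Finset.sum_apply, fourierCoeff.const_mul, fc_shift, ← mul_assoc, ← sum_mul] at this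
    rw [← this]
    congr 1
    funext θ
    simp [HH]

lemma blk_ex (F : Finset TT) : ∃ L : ℕ, 0 < L ∧
    ∀ s : ℤ, ∑ γ ∈ (F - F).erase 0, ‖∑ t ∈ range L, fourier (s + t) γ‖ ≤ L := by
  obtain ⟨L, hL⟩ := exists_nat_ge (∑ γ ∈ (F - F).erase 0, 2 / ‖fourier 1 γ - 1‖)
  refine ⟨L + 1, L.succ_pos, fun s => (sum_le_sum fun γ h => geo_bd (ne_of_mem_erase h) s _).trans
    (hL.trans (by simp))⟩

lemma coe_mul_nat (M : ℕ) (x : ℝ) : ((M * x : ℝ) : TT) = M • (x : TT) := by
  rw [← AddCircle.coe_nsmul, nsmul_eq_mul]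

lemma dil (hpq : p.HolderConjugate q) : ∃ C, 0 < C ∧ ∀ (M : ℕ) (α : ℝ), 0 < M → 0 ≤ α → α ≤ 1 →
    Mu p q (fun θ => ind α (M • θ)) C := by
  obtain ⟨C, hC, h⟩ := stepm hpq
  refine ⟨C, hC, fun M α hM h0 h1 => ?_⟩
  have M0 : (0 : ℝ) < M := by exact_mod_cast hM
  obtain ⟨F, hF⟩ : ∃ F : Finset TT, ∀ x, x ∈ F ↔ M • x = 0 :=
    ⟨(finite_torsion 1 hM).toFinset, fun x => Set.Finite.mem_toFinset _⟩
  have hn : F.Nonempty := ⟨0, by simp [hF]⟩
  have hG : ∀ x, x ∈ F - F ↔ M • x = 0 := fun x => ⟨fun hx => by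
    obtain ⟨a, ha, b, hb, rfl⟩ := mem_sub.1 hx
    rw [smul_sub, (hF a).1 ha, (hF b).1 hb, sub_zero], fun hx => by
    simpa using sub_mem_sub ((hF x).2 hx) ((hF 0).2 (by simp))⟩
  have k := h F M (α / M) hn hM (by positivity) (by gcongr) fun s => by
    rw [sum_eq_zero fun γ hγ => ?_]
    · positivity
    rw [geo (ne_of_mem_erase hγ), fourier_apply (n := M), natCast_zsmul,
      (hG γ).1 (mem_of_mem_erase hγ)]
    simp
  convert k using 2 with θ
  have e : ∀ γ, M • γ = 0 → rep (θ - γ) < 1 / M → rep (M • θ) = M * rep (θ - γ) := fun γ hγ h => by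
    rw [← rep_of (x := M * rep (θ - γ)) (mul_nonneg M0.le (rep_nonneg _))
      (by rwa [lt_div_iff₀' M0] at h), coe_mul_nat, coe_rep, smul_sub, hγ, sub_zero]
  have e0 : M • (θ - (rep (M • θ) / M : ℝ)) = 0 := by
    rw [smul_sub, ← coe_mul_nat, mul_div_cancel₀ _ M0.ne', coe_rep, sub_self]
  rw [HH, sum_eq_single_of_mem _ ((hG _).2 e0) fun γ hγ hne => ?_]
  · have := rep_lt (M • θ)
    have := rep_nonneg (M • θ)
    rw [psi_one hn fun y hy => by rw [hF, smul_add, (hF y).1 hy, e0, add_zero], sub_sub_cancel,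
      ind, ind, rep_of (by positivity) (by
        rw [div_lt_one M0]; exact lt_of_lt_of_le ‹_› (by exact_mod_cast hM))]
    simp [div_lt_div_iff_of_pos_right M0]
  · rw [ind, if_neg fun h => hne ?_, mul_zero]
    rw [e γ ((hG γ).1 hγ) (h.trans_le (by gcongr)), mul_div_cancel_left₀ _ M0.ne', coe_rep,
      sub_sub_cancel]

lemma folner (B : Finset TT) {ε : ℝ} (hε : 0 < ε) :
    ∃ F : Finset TT, F.Nonempty ∧ ∀ β ∈ B, 1 - ε ≤ psi F β := by
  let F : ℕ → Finset TT := fun R =>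
    (Fintype.piFinset fun _ : B => range (R + 1)).image fun k => ∑ β : B, k β • (β : TT)
  have F1 : ∀ R, (F R).Nonempty := fun R =>
    (Fintype.piFinset_nonempty.2 fun _ => nonempty_range_add_one).image _
  have F2 : ∀ R, F R ⊆ F (R + 1) := fun R =>
    image_subset_image (Fintype.piFinset_subset _ _ fun _ => range_subset_range.2 (by omega))
  have F3 : ∀ R, ∀ β ∈ B, ∀ y ∈ F R, y + β ∈ F (R + 1) := fun R β hβ y hy => by
    obtain ⟨k, hk, rfl⟩ := mem_image.1 hy
    refine mem_image.2 ⟨k + Pi.single ⟨β, hβ⟩ 1, Fintype.mem_piFinset.2 fun i => ?_, ?_⟩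
    · have := mem_range.1 (Fintype.mem_piFinset.1 hk i)
      rw [mem_range, Pi.add_apply, Pi.single_apply]
      split_ifs <;> omega
    · simp [add_smul, sum_add_distrib, Pi.single_apply]
  have F4 : ∀ R, (#(F R) : ℝ) ≤ (R + 1 : ℕ) ^ #B := fun R => by
    exact_mod_cast card_image_le.trans (by simp)
  obtain ⟨R, hR⟩ : ∃ R, (#(F (R + 1)) : ℝ) ≤ (1 + ε) * #(F R) := by
    by_contra! h
    have k : ∀ R, (1 + ε) ^ R ≤ (#(F R) : ℝ) := fun R => by
      induction R with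
      | zero => simpa using F1 0
      | succ R ih =>
        rw [pow_succ']
        exact (mul_le_mul_of_nonneg_left ih (by positivity)).trans (h R).le
    have l := (tendsto_pow_const_div_const_pow_of_one_lt #B
      (by linarith : 1 < 1 + ε)).comp (tendsto_add_atTop_nat 1)
    obtain ⟨R, hR⟩ := (l.eventually_lt_const (by positivity : 0 < 1 / (1 + ε))).exists
    rw [Function.comp, div_lt_div_iff₀ (by positivity) (by positivity), pow_succ] at hR
    nlinarith [(k R).trans (F4 R)]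
  refine ⟨F R, F1 R, fun β hβ => ?_⟩
  have c0 : (0 : ℝ) < #(F R) := by exact_mod_cast (F1 R).card_pos
  have c1 := card_filter_add_card_filter_not (s := F R) fun y => y + β ∈ F R
  have c2 : #{y ∈ F R | y + β ∉ F R} ≤ #(F (R + 1) \ F R) :=
    card_le_card_of_injOn (· + β) (fun y hy => by
      simp only [coe_filter, Set.mem_ofPred_eq, coe_sdiff, Set.mem_sdiff, mem_coe] at hy ⊢
      exact ⟨F3 R β hβ y hy.1, hy.2⟩) fun _ _ _ _ h => add_right_cancel h
  have c3 := card_sdiff_add_card_eq_card (F2 R)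
  have c4 : (2 * #(F R) : ℝ) ≤ #{y ∈ F R | y + β ∈ F R} + #(F (R + 1)) := by
    exact_mod_cast (by omega : 2 * #(F R) ≤ #{y ∈ F R | y + β ∈ F R} + #(F (R + 1)))
  rw [psi, le_div_iff₀ c0]
  linarith

end Pool.Agent.H.MP_0dd021_an
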