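import Pool.Agent.H.MP_0dd021_an.E

set_option autoImplicit false

open Finset Filter Topology Complex MeasureTheory AddCircle
open scoped Real ComplexConjugate Pointwise Classical

namespace Pool.Agent.H.MP_0dd021_an

variable {p q : ℝ} {F G H : TT → ℂ} {C D : ℝ}

lemma Mu.mix (hpq : p.HolderConjugate q) (h : Mu p q F D) (h' : Mu p q G D) (hH : Mu p q H C)
    (hD : 0 ≤ D) (hC : 0 < C) (k : Ni F) (k' : Ni G) (kH : Ni H) :
    Mu p q (fun θ => (F θ + -1 * G θ) * H θ + G θ) ((4 * C + 1) * D) := by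
  have h1 : Mu p q (fun θ => -1 * G θ) (‖(-1 : ℂ)‖ * D) :=
    (Bd.smul h' (-1)).congr fun _ _ => fourierCoeff.const_mul _ _ _
  have k1 := (Ni.const (-1)).mul k'
  exact Bd.mono (((h.add h1 k k1).mul hpq hH (by positivity) hC (k.add k1) kH).add h'
    ((k.add k1).mul kH) k') (le_of_eq (by simp; ring))

noncomputable def fl (M : ℕ) (θ : TT) : TT := θ - (rep (M • θ) / M : ℝ)

noncomputable def EE (F : TT → ℂ) (M : ℕ) (θ : TT) : ℂ := ∫ η, F (fl M θ + (rep η / M : ℝ)) ∂mu

lemma fl_coe {M : ℕ} (hM : 0 < M) (x : ℝ) : fl M x = (⌊M * x⌋ / M : ℝ) := by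
  have M0 : (M : ℝ) ≠ 0 := by exact_mod_cast hM.ne'
  rw [fl, ← coe_mul_nat, rep_coe, ← AddCircle.coe_sub, Int.fract]
  congr 1
  field_simp
  ring

lemma EE_bd {B : ℝ} (h : ∀ θ, ‖F θ‖ ≤ B) (M : ℕ) (θ : TT) : ‖EE F M θ‖ ≤ B := by
  simpa [EE] using norm_integral_le_of_norm_le_const (μ := mu) (Eventually.of_forall fun η =>
    h (fl M θ + (rep η / M : ℝ)))

lemma EE_ni (h : Ni F) (M : ℕ) : Ni (EE F M) := by
  obtain ⟨h, B, hB⟩ := h
  refine ⟨(StronglyMeasurable.integral_prod_right (Measurable.stronglyMeasurable ?_)).measurable,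
    B, EE_bd hB M⟩
  unfold fl Function.uncurry
  fun_prop

lemma rep_add (x y : TT) :
    rep (x + y) = if rep y < 1 - rep x then rep x + rep y else rep x - 1 + rep y := by
  have := rep_nonneg x
  have := rep_nonneg y
  have := rep_lt x
  have := rep_lt y
  split_ifs with h
  · rw [← rep_of (x := rep x + rep y) (by linarith) (by linarith), AddCircle.coe_add, coe_rep,
      coe_rep]
  · rw [← rep_of (x := rep x - 1 + rep y) (by linarith) (by linarith), AddCircle.coe_add,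
      AddCircle.coe_sub, coe_rep, coe_rep, coe_period, sub_zero]

lemma EE_mu (hpq : p.HolderConjugate q) : ∃ C, 0 < C ∧ ∀ (F : TT → ℂ) (D : ℝ) (M : ℕ), Ni F →
    Mu p q F D → 0 ≤ D → 0 < M → Mu p q (EE F M) (C * D) := by
  obtain ⟨C, hC, h⟩ := dil hpq
  refine ⟨4 * C + 1, by positivity, fun F D M hF h1 hD hM => ?_⟩
  obtain ⟨hm, B, hB⟩ := id hF
  have k := Mu.integ (B := (B + B) * 1 + B) (Φ := fun η θ => (F (θ + (rep η / M : ℝ)) +
    -1 * F (θ + ((rep η - 1) / M : ℝ))) * ind (1 - rep η) (M • θ) + F (θ + ((rep η - 1) / M : ℝ)))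
    (by unfold Function.uncurry; fun_prop) (fun η θ => norm_add_le_of_le (norm_mul_le_of_le
      (norm_add_le_of_le (hB _) (by simpa using hB _)) (ind_norm _ _)) (hB _)) fun η =>
    Mu.mix hpq (h1.shift _) (h1.shift _) (h M _ hM (by linarith [rep_lt η])
      (by linarith [rep_nonneg η])) hD hC (hF.comp (by fun_prop)) (hF.comp (by fun_prop))
      ((ind_ni _).comp (by fun_prop))
  convert k using 2 with θ
  rw [EE, ← integral_add_right_eq_self _ (M • θ)]
  congr 1
  funext η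
  rw [rep_add, ind, fl]
  split_ifs <;> simp [add_div]

/-- `G` is locally constant off `B` -/
def Lc (G : TT → ℂ) (B : Finset TT) : Prop :=
  ∀ x y : ℝ, x ≤ y → (∀ z ∈ Set.Icc x y, (z : TT) ∉ B) → G x = G y

def St (G : TT → ℂ) : Prop := ∃ B, Lc G B

lemma St.op (h : St F) (h' : St G) (o : ℂ → ℂ → ℂ) : St fun θ => o (F θ) (G θ) := by
  obtain ⟨B, h⟩ := h
  obtain ⟨B', h'⟩ := h'
  exact ⟨B ∪ B', fun x y k hz => congrArg₂ o (h x y k fun z m n => hz z m (mem_union_left _ n))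
    (h' x y k fun z m n => hz z m (mem_union_right _ n))⟩

lemma St.shift (h : St F) (γ : TT) : St fun θ => F (θ + γ) := by
  obtain ⟨B, h⟩ := h
  refine ⟨B.image (· - γ), fun x y k hz => ?_⟩
  have := h (x + rep γ) (y + rep γ) (by linarith) fun z m n => hz (z - rep γ)
    ⟨by linarith [m.1], by linarith [m.2]⟩
    (mem_image.2 ⟨_, n, by rw [AddCircle.coe_sub, coe_rep]⟩)
  simpa only [AddCircle.coe_add, coe_rep] using this

lemma coe_int (n : ℤ) : ((n : ℝ) : TT) = 0 := (coe_eq_zero_iff 1).2 ⟨n, by simp⟩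

lemma floor_eq {x y : ℝ} (h : x ≤ y) (k : ∀ n : ℤ, (n : ℝ) ∉ Set.Icc x y) : ⌊x⌋ = ⌊y⌋ :=
  le_antisymm (Int.floor_mono h) (Int.le_floor.2 (le_of_not_ge fun m =>
    k _ ⟨m, Int.floor_le y⟩))

lemma ind_st (α : ℝ) : St (ind α) := by
  refine ⟨{0, (α : TT)}, fun x y k hz => ?_⟩
  have e := floor_eq k fun n hn => hz n hn (by simp [coe_int])
  have := hz (⌊y⌋ + α)
  simp only [AddCircle.coe_add, coe_int, zero_add, mem_insert, mem_singleton, or_true,
    not_true_eq_false, imp_false, Set.mem_Icc, not_and, not_le] at this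
  simp only [ind, rep_coe, Int.fract, e]
  exact if_congr ⟨fun h => by linarith [this (by linarith)], fun h => by linarith⟩ rfl rfl

lemma HH_st (F : Finset TT) (δ : ℝ) : St (HH F δ) := by
  unfold HH
  induction F - F using Finset.induction_on with
  | empty => exact ⟨∅, fun _ _ _ _ => by simp⟩
  | insert γ G h ih =>
    simpa only [sum_insert h, sub_eq_add_neg] using
      ((ind_st δ).shift (-γ)).op ih fun u v => (psi F γ : ℂ) ^ 2 * u + v

lemma EE_st (F : TT → ℂ) {M : ℕ} (hM : 0 < M) : St (EE F M) := by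
  have M0 : (0 : ℝ) < M := by exact_mod_cast hM
  refine ⟨(finite_torsion 1 hM).toFinset, fun x y k hz => ?_⟩
  rw [EE, EE, fl_coe hM, fl_coe hM, floor_eq (by gcongr : M * x ≤ M * y) fun n hn =>
    hz (n / M) ⟨(le_div_iff₀' M0).2 hn.1, (div_le_iff₀' M0).2 hn.2⟩ ?_]
  rw [Set.Finite.mem_toFinset, Set.mem_ofPred_eq, ← coe_mul_nat, mul_div_cancel₀ _ M0.ne', coe_int]

lemma rep_qmp : Measure.QuasiMeasurePreserving rep mu volume := by
  refine ⟨rep_meas, Measure.AbsolutelyContinuous.mk fun s hs h0 => ?_⟩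
  have e : mu = volume := by simp [volume_eq_smul_haarAddCircle]
  rw [Measure.map_apply rep_meas hs, e, ← (UnitAddCircle.measurePreserving_mk 0).measure_preimage
    (rep_meas hs).nullMeasurableSet, Measure.restrict_apply' measurableSet_Ioc]
  refine measure_mono_null (fun x hx => ?_) (measure_union_null h0 (measure_singleton 1))
  rcases eq_or_ne x 1 with h | h
  · exact Or.inr h
  · left
    rw [← rep_of hx.2.1.le (lt_of_le_of_ne (by simpa using hx.2.2) h)]
    exact hx.1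

lemma EE_app (hF : Ni F) {B : Finset TT} (hG : Lc G B) {ε : ℝ}
    (h : ∀ᵐ x : ℝ, ‖F x - G x‖ ≤ ε) {M : ℕ} (hM : 0 < M) {u v x y : ℝ}
    (hz : ∀ z ∈ Set.Icc u v, (z : TT) ∉ B) (hx : x ∈ Set.Icc u v) (h1 : u ≤ y - 1 / M)
    (h2 : y + 1 / M ≤ v) : ‖EE F M y - G x‖ ≤ ε := by
  have M0 : (0 : ℝ) < M := by exact_mod_cast hM
  have e : ∀ x ∈ Set.Icc u v, G u = G x := fun x hx =>
    hG u x hx.1 fun z k => hz z ⟨k.1, k.2.trans hx.2⟩
  have k := rep_qmp.ae ((Measure.quasiMeasurePreserving_smul volume (inv_ne_zero M0.ne')).ae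
    ((measurePreserving_add_left volume (⌊M * y⌋ / M : ℝ)).quasiMeasurePreserving.ae h))
  have i := (hF.comp (g := fun η => fl M y + (rep η / M : ℝ)) (by fun_prop)).int
  have e2 : EE F M y - G x = ∫ η, (F (fl M y + (rep η / M : ℝ)) - G x) ∂mu := by
    rw [integral_sub i (integrable_const _)]
    simp [EE]
  rw [e2]
  refine (norm_integral_le_of_norm_le_const (C := ε) ?_).trans (by simp)
  filter_upwards [k] with η hη
  rw [smul_eq_mul, inv_mul_eq_div, ← e, e x hx] at hη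
  · rwa [fl_coe hM, ← AddCircle.coe_add]
  · have a1 := Int.floor_le (M * y)
    have a2 := Int.lt_floor_add_one (M * y)
    have a3 := rep_nonneg η
    have a4 := rep_lt η
    have a5 : y = M * y / M := by field_simp
    rw [← add_div]
    refine ⟨h1.trans ?_, le_trans ?_ h2⟩
    · rw [a5, ← sub_div, ← a5]
      gcongr
      linarith
    · rw [a5, ← add_div, ← a5]
      gcongr

lemma sep (G : Finset TT) : ∃ δ : ℝ, 0 < δ ∧ δ ≤ 1 ∧
    ∀ x ∈ G, ∀ y ∈ G, rep (x - y) < δ → x = y := by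
  have l : ∀ᶠ δ : ℝ in 𝓝[>] 0, ∀ x ∈ G, ∀ y ∈ G, rep (x - y) < δ → x = y := by
    simp only [eventually_all_finset]
    intro x _ y _
    rcases eq_or_ne x y with h | h
    · simp [h]
    · have : 0 < rep (x - y) := (rep_nonneg _).lt_of_ne' fun k => h (by
        rw [← sub_eq_zero, ← coe_rep (x - y), k, QuotientAddGroup.mk_zero])
      filter_upwards [Ioo_mem_nhdsGT this] with δ hδ k
      linarith [hδ.2]
  obtain ⟨δ, h1, h2⟩ := (l.and (Ioo_mem_nhdsGT one_pos)).exists
  exact ⟨δ, h2.1, h2.2.le, h1⟩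

lemma pre_ct (B : Finset TT) : {x : ℝ | (x : TT) ∈ B}.Countable := by
  have := (B.countable_toSet.prod (Set.countable_univ (α := ℤ))).image fun z => rep z.1 + z.2
  refine this.mono fun x hx => ?_
  exact ⟨((x : TT), ⌊x⌋), ⟨hx, trivial⟩, by simp [rep_coe]⟩

lemma St.meas (h : St F) : Measurable fun x : ℝ => F x := by
  obtain ⟨B, h⟩ := h
  refine measurable_of_countable_not_continuousAt ((pre_ct B).mono fun x hx => ?_)
  by_contra k
  obtain ⟨r, hr, k⟩ := Metric.mem_nhds_iff.1 ((B.finite_toSet.isClosed.preimage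
    (AddCircle.continuous_mk' 1)).isOpen_compl.mem_nhds k)
  rw [Real.ball_eq_Ioo] at k
  refine hx (continuousAt_const.congr (g := fun x : ℝ => F x) (f := fun _ => F x) ?_)
  filter_upwards [Ioo_mem_nhds (by linarith : x - r < x) (by linarith : x < x + r)] with y hy
  rcases le_total x y with m | m
  · exact h x y m fun z hz => k ⟨by linarith [hz.1], hz.2.trans_lt hy.2⟩
  · exact (h y x m fun z hz => k ⟨hy.1.trans_le hz.1, by linarith [hz.2]⟩).symm

theorem approx (hpq : p.HolderConjugate q) : ∃ C, 0 < C ∧ ∀ (F G : TT → ℂ) (D A ε : ℝ),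
    Measurable F → (∀ θ, ‖F θ‖ ≤ A) → Mu p q F D → 0 ≤ D → St G → 0 < ε →
    (∀ᵐ x : ℝ, ‖F x - G x‖ ≤ ε) → ∃ W : TT → ℂ, St W ∧ Mu p q W (C * D) ∧
      ∀ᵐ x : ℝ, ‖W x - F x‖ ≤ (4 + 4 * A) * ε := by
  obtain ⟨C, hC, h1⟩ := EE_mu hpq
  obtain ⟨C', hC', h2⟩ := stepm hpq
  refine ⟨(4 * C' + 1) * C, by positivity, fun F G D A ε hm hA hF hD ⟨B, hB⟩ hε h => ?_⟩
  have nF : Ni F := ⟨hm, A, hA⟩
  have A0 : 0 ≤ A := (norm_nonneg _).trans (hA 0)
  obtain ⟨P, hP, hP'⟩ := folner B hε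
  obtain ⟨L, hL, hL'⟩ := blk_ex P
  obtain ⟨δ₀, d0, d1, d2⟩ := sep ((P - P) ∪ B)
  set δ := min (δ₀ / 2) (1 / L)
  have d3 : 0 < δ := lt_min (by positivity) (by positivity)
  have d4 : 2 * δ ≤ δ₀ := by linarith [min_le_left (δ₀ / 2) (1 / L)]
  obtain ⟨M, hM⟩ := exists_nat_gt (2 / δ)
  have M0 : (0 : ℝ) < M := lt_trans (by positivity) hM
  have M1 : 0 < M := by exact_mod_cast M0
  have M2 : 1 / M + 1 / M < δ := by
    rw [← add_div, div_lt_iff₀' M0, ← div_lt_iff₀ d3]
    linarith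
  have M3 : (0 : ℝ) < 1 / M := by positivity
  have nE := EE_ni nF M
  have sE := EE_st F M1
  have mE := h1 F D M nF hF hD M1
  refine ⟨fun θ => (EE F M (θ + (1 / M : ℝ)) + -1 * EE F M (θ + (-(1 / M) : ℝ))) * HH P δ θ +
    EE F M (θ + (-(1 / M) : ℝ)), (((sE.shift _).op (sE.shift _) fun u v => u + -1 * v).op
    (HH_st P δ) (· * ·)).op (sE.shift _) (· + ·), Bd.mono (Mu.mix hpq (mE.shift _) (mE.shift _)
    (h2 P L δ hP hL d3.le (min_le_right _ _) hL') (by positivity) hC' (nE.comp (by fun_prop))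
    (nE.comp (by fun_prop)) (HH_ni P δ)) (by rw [mul_assoc]), ?_⟩
  have hc : ∀ᵐ x : ℝ, (x : TT) ∉ B := compl_mem_ae_iff.2 ((pre_ct B).measure_zero _)
  filter_upwards [h, hc] with x hx hx'
  have u1 : ∀ γ ∈ P - P ∪ B, ∀ γ' ∈ P - P ∪ B, rep (x - γ) < δ → rep (x - γ') < δ → γ = γ' := by
    intro γ k γ' k' m m'
    wlog w : rep (x - γ) ≤ rep (x - γ') generalizing γ γ'
    · exact (this γ' k' γ k m' m (le_of_not_ge w)).symm
    refine d2 _ k _ k' ?_
    have := rep_nonneg (x - γ)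
    rw [show γ - γ' = (rep (x - γ') - rep (x - γ) : ℝ) by
      rw [AddCircle.coe_sub, coe_rep, coe_rep, sub_sub_sub_cancel_left],
      rep_of (by linarith) (by linarith)]
    linarith
  have u2 : ∀ γ ∈ P - P ∪ B, rep (x - γ) < δ → HH P δ x = (psi P γ : ℂ) ^ 2 := fun γ k m => by
    rw [HH, sum_eq_single γ (fun γ' k' n => by
      rw [ind, if_neg fun m' => n (u1 _ (mem_union_left _ k') _ k m' m), mul_zero]) fun n => ?_,
      ind, if_pos m, mul_one]
    rw [psi, filter_false_of_mem fun y hy hy' => n (by simpa using sub_mem_sub hy' hy)]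
    simp
  have u3 : (∀ γ ∈ P - P, ¬rep (x - γ) < δ) → HH P δ x = 0 := fun k =>
    sum_eq_zero fun γ m => by rw [ind, if_neg (k γ m), mul_zero]
  obtain ⟨s, s0, s1, s2⟩ : ∃ s : ℝ, 0 ≤ s ∧ s ≤ 1 ∧ HH P δ x = s := by
    by_cases k : ∀ γ ∈ P - P, ¬rep (x - γ) < δ
    · exact ⟨0, le_rfl, zero_le_one, u3 k⟩
    · push Not at k
      obtain ⟨γ, k, m⟩ := k
      exact ⟨psi P γ ^ 2, by positivity, pow_le_one₀ (psi_nonneg _ _) (psi_le _ _),
        by rw [u2 γ (mem_union_left _ k) m, ofReal_pow]⟩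
  have v1 : s * ‖EE F M (x + (1 / M : ℝ)) - F x‖ ≤ 2 * ε := by
    by_cases k : ∀ z ∈ Set.Icc x (x + 1 / M + 1 / M), (z : TT) ∉ B
    · have := EE_app nF hB h M1 k (x := x) (y := x + 1 / M) ⟨le_rfl, by linarith⟩ (by linarith)
        le_rfl
      have t := norm_sub_le_norm_sub_add_norm_sub (EE F M (x + 1 / M : ℝ)) (G x) (F x)
      rw [norm_sub_rev (G x)] at t
      rw [← AddCircle.coe_add]
      exact (mul_le_of_le_one_left (norm_nonneg _) s1).trans (by linarith)
    · push Not at k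
      obtain ⟨z, k, m⟩ := k
      rw [u3 fun γ n r => ?_] at s2
      · rw [ofReal_eq_zero.1 s2.symm, zero_mul]
        positivity
      have := rep_nonneg (x - γ)
      have zx : x < z := k.1.lt_of_ne fun e => hx' (e ▸ m)
      have e : rep (z - γ) = rep (x - γ) + (z - x) := by
        rw [← rep_of (x := rep (x - γ) + (z - x)) (by linarith) (by linarith [k.2]),
          AddCircle.coe_add, coe_rep, AddCircle.coe_sub, sub_add_sub_cancel']
      have e2 := d2 _ (mem_union_right _ m) _ (mem_union_left _ n) (by linarith [k.2])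
      rw [e2, sub_self, ← QuotientAddGroup.mk_zero, rep_of le_rfl one_pos] at e
      linarith
  have v2 : (1 - s) * ‖EE F M (x + (-(1 / M) : ℝ)) - F x‖ ≤ (2 + 4 * A) * ε := by
    by_cases k : ∀ z ∈ Set.Icc (x - 1 / M - 1 / M) x, (z : TT) ∉ B
    · have := EE_app nF hB h M1 k (x := x) (y := x + -(1 / M)) ⟨by linarith, le_rfl⟩ (by linarith)
        (by linarith)
      have t := norm_sub_le_norm_sub_add_norm_sub (EE F M (x + -(1 / M) : ℝ)) (G x) (F x)
      rw [norm_sub_rev (G x)] at t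
      rw [← AddCircle.coe_add]
      refine (mul_le_of_le_one_left (norm_nonneg _) (by linarith)).trans ?_
      nlinarith
    · push Not at k
      obtain ⟨z, k, m⟩ := k
      rw [u2 z (mem_union_right _ m) (by
        rw [← AddCircle.coe_sub, rep_of (by linarith [k.2]) (by linarith [k.1])]
        linarith [k.1]), ← ofReal_pow, ofReal_inj] at s2
      have a1 := hP' z m
      have a2 := psi_le P z
      have a3 := psi_nonneg P z
      have a4 : 1 - s ≤ 2 * ε := by nlinarith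
      have a5 := (norm_sub_le _ _).trans (add_le_add (EE_bd hA M (x + (-(1 / M) : ℝ))) (hA x))
      refine (mul_le_mul a4 a5 (norm_nonneg _) (by positivity)).trans ?_
      nlinarith
  rw [s2]
  calc _ = ‖s * (EE F M (x + (1 / M : ℝ)) - F x) +
        (1 - s : ℝ) * (EE F M (x + (-(1 / M) : ℝ)) - F x)‖ := by
        congr 1
        push_cast
        ring
    _ ≤ _ := by
        refine (norm_add_le _ _).trans ?_
        rw [norm_mul, norm_mul, norm_real, norm_real, Real.norm_of_nonneg s0,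
          Real.norm_of_nonneg (by linarith)]
        linarith

end Pool.Agent.H.MP_0dd021_an
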